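import Mathlib
import Pool.Agent.DD7719.Kronecker

/-! Critical points of the dominant part of a recurrence on the orbit closure. -/

set_option autoImplicit false

open Filter Topology

namespace Pool.Agent.NarrowFew

/-- The dominant part as a function on the torus. -/
noncomputable def Fd {m : ℕ} (c0 : ℝ) (c : Fin m → ℂ) (z : Fin m → ℂ) : ℝ :=
  c0 + ∑ i, 2 * (c i * z i).re

/-- Characters which are torsion at `γ`. -/
def Rel {m : ℕ} (γ : Fin m → ℂ) (g : Fin m → ℤ) : Prop :=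
  ∃ k : ℕ, 0 < k ∧ (∏ i, γ i ^ g i) ^ k = 1

/-- Limit points of the orbit of `γ`. -/
def LimPt {m : ℕ} (γ z : Fin m → ℂ) : Prop :=
  ∀ (N : ℕ) (ε : ℝ), 0 < ε → ∃ n, N ≤ n ∧ ∀ i, ‖γ i ^ n - z i‖ < ε

lemma LimPt.norm {m : ℕ} {γ z : Fin m → ℂ} (hγ : ∀ i, ‖γ i‖ = 1) (h : LimPt γ z) (i : Fin m) :
    ‖z i‖ = 1 := by
  by_contra hne
  have hpos : 0 < |‖z i‖ - 1| := abs_pos.2 (sub_ne_zero.2 hne)
  obtain ⟨n, -, hn⟩ := h 0 _ hpos
  have h1 := hn i
  have h2 : |‖z i‖ - 1| ≤ ‖γ i ^ n - z i‖ := by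
    have := abs_norm_sub_norm_le (z i) (γ i ^ n)
    rw [norm_pow, hγ, one_pow, norm_sub_rev] at this
    exact this
  linarith

lemma LimPt.mul {m : ℕ} {γ z w : Fin m → ℂ} (hγ : ∀ i, ‖γ i‖ = 1) (h : LimPt γ z)
    (hw : ∀ i, ‖w i‖ = 1) (H : ∀ g, Rel γ g → ∏ i, w i ^ g i = 1) :
    LimPt γ (fun i => z i * w i) := by
  intro N ε hε
  obtain ⟨n1, hn1, h1⟩ := h N (ε / 2) (by linarith)
  obtain ⟨n2, -, h2⟩ := DD7719.kronecker γ w hγ hw H 1 one_pos 0 (ε / 2) (by linarith)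
  refine ⟨n1 + n2, by omega, fun i => ?_⟩
  have e : γ i ^ (n1 + n2) - z i * w i = γ i ^ n1 * (γ i ^ (1 * n2) - w i) +
      (γ i ^ n1 - z i) * w i := by
    rw [one_mul, pow_add]; ring
  rw [e]
  calc ‖γ i ^ n1 * (γ i ^ (1 * n2) - w i) + (γ i ^ n1 - z i) * w i‖
      ≤ ‖γ i ^ n1 * (γ i ^ (1 * n2) - w i)‖ + ‖(γ i ^ n1 - z i) * w i‖ := norm_add_le _ _
    _ = ‖γ i ^ (1 * n2) - w i‖ + ‖γ i ^ n1 - z i‖ := by
        rw [norm_mul, norm_mul, norm_pow, hγ, hw, one_pow, one_mul, mul_one]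
    _ < ε := by linarith [h1 i, h2 i]

lemma Fd_sub {m : ℕ} (c0 : ℝ) (c z w : Fin m → ℂ) :
    |Fd c0 c z - Fd c0 c w| ≤ ∑ i, 2 * (‖c i‖ * ‖z i - w i‖) := by
  have e : Fd c0 c z - Fd c0 c w = ∑ i, 2 * (c i * (z i - w i)).re := by
    unfold Fd
    rw [add_sub_add_left_eq_sub, ← Finset.sum_sub_distrib]
    refine Finset.sum_congr rfl fun i _ => ?_
    rw [mul_sub (c i), Complex.sub_re]; ring
  rw [e]
  refine (Finset.abs_sum_le_sum_abs _ _).trans (Finset.sum_le_sum fun i _ => ?_)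
  rw [abs_mul, abs_two]
  have := Complex.abs_re_le_norm (c i * (z i - w i))
  rw [norm_mul] at this
  linarith

lemma Fd_tendsto {m : ℕ} (c0 : ℝ) (c z : Fin m → ℂ) (η : ℝ) (hη : 0 < η) :
    ∃ ε : ℝ, 0 < ε ∧ ∀ w : Fin m → ℂ, (∀ i, ‖w i - z i‖ < ε) →
      |Fd c0 c w - Fd c0 c z| < η := by
  set S : ℝ := ∑ i, 2 * ‖c i‖ with hS
  have hS0 : 0 ≤ S := Finset.sum_nonneg fun i _ => by positivity
  refine ⟨η / (S + 1), by positivity, fun w hw => ?_⟩
  refine lt_of_le_of_lt (Fd_sub c0 c w z) ?_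
  have h1 : ∑ i, 2 * (‖c i‖ * ‖w i - z i‖) ≤ ∑ i, 2 * ‖c i‖ * (η / (S + 1)) := by
    refine Finset.sum_le_sum fun i _ => ?_
    rw [← mul_assoc]
    exact mul_le_mul_of_nonneg_left (hw i).le (by positivity)
  refine lt_of_le_of_lt h1 ?_
  rw [← Finset.sum_mul, ← hS]
  rw [mul_div_assoc', div_lt_iff₀ (by positivity)]
  nlinarith

/-- The dominant part is asymptotically nonnegative along the orbit. -/
def AsNonneg {m : ℕ} (c0 : ℝ) (c γ : Fin m → ℂ) : Prop :=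
  ∀ ε : ℝ, 0 < ε → ∃ N : ℕ, ∀ n, N ≤ n → -ε ≤ Fd c0 c (fun i => γ i ^ n)

lemma LimPt.nonneg {m : ℕ} {c0 : ℝ} {c γ z : Fin m → ℂ} (hF : AsNonneg c0 c γ)
    (h : LimPt γ z) : 0 ≤ Fd c0 c z := by
  by_contra hneg
  push Not at hneg
  obtain ⟨ε, hε, h1⟩ := Fd_tendsto c0 c z (-(Fd c0 c z) / 2) (by linarith)
  obtain ⟨N, hN⟩ := hF (-(Fd c0 c z) / 2) (by linarith)
  obtain ⟨n, hn, h2⟩ := h N ε hε
  have h3 := h1 _ h2
  have h4 := hN n hn
  have h5 := (abs_lt.1 h3).2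
  linarith

/-- The equation of Lagrange at a zero. -/
lemma lagrange {m : ℕ} {c0 : ℝ} {c γ z : Fin m → ℂ} (hγ : ∀ i, ‖γ i‖ = 1)
    (hF : AsNonneg c0 c γ) (h : LimPt γ z) (hz : Fd c0 c z = 0) (τ : Fin m → ℝ)
    (hτ : ∀ g, Rel γ g → ∑ i, (g i : ℝ) * τ i = 0) :
    ∑ i, τ i * (c i * z i).im = 0 := by
  let w : ℝ → Fin m → ℂ := fun s i => Complex.exp ((s * τ i : ℝ) * Complex.I)
  have hw : ∀ s i, ‖w s i‖ = 1 := fun s i => Complex.norm_exp_ofReal_mul_I _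
  have hwg : ∀ s g, Rel γ g → ∏ i, w s i ^ g i = 1 := by
    intro s g hg
    have h1 : ∀ i, w s i ^ g i = Complex.exp ((g i : ℂ) * ((s * τ i : ℝ) * Complex.I)) := by
      intro i
      rw [← Complex.exp_int_mul]
    simp only [h1]
    rw [← Complex.exp_sum]
    have h2 : ∑ i, (g i : ℂ) * ((s * τ i : ℝ) * Complex.I) =
        ((s * ∑ i, (g i : ℝ) * τ i : ℝ) : ℂ) * Complex.I := by
      push_cast
      rw [Finset.mul_sum, Finset.sum_mul]
      refine Finset.sum_congr rfl fun i _ => ?_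
      ring
    rw [h2, hτ g hg]
    simp
  let f : ℝ → ℝ := fun s => Fd c0 c (fun i => z i * w s i)
  have hf0 : f 0 = 0 := by
    have e : (fun i => z i * w 0 i) = z := by
      funext i
      simp [w]
    change Fd c0 c (fun i => z i * w 0 i) = 0
    rw [e, hz]
  have hmin : IsLocalMin f 0 := by
    refine Filter.Eventually.of_forall fun s => ?_
    rw [hf0]
    exact (h.mul hγ (hw s) (hwg s)).nonneg hF
  have hder : HasDerivAt f (∑ i, 2 * (c i * (z i * ((τ i : ℂ) * Complex.I))).re) 0 := by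
    have h1 : ∀ i ∈ (Finset.univ : Finset (Fin m)),
        HasDerivAt (fun s : ℝ => 2 * (c i * (z i * w s i)).re)
          (2 * (c i * (z i * ((τ i : ℂ) * Complex.I))).re) 0 := by
      intro i _
      have h2 : HasDerivAt (fun s : ℝ => w s i) ((τ i : ℂ) * Complex.I) 0 := by
        have h3 : HasDerivAt (fun s : ℝ => ((s * τ i : ℝ) : ℂ) * Complex.I)
            ((τ i : ℂ) * Complex.I) 0 := by
          have h4 : HasDerivAt (fun s : ℝ => s * τ i) (τ i) 0 := by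
            simpa using (hasDerivAt_id (0 : ℝ)).mul_const (τ i)
          exact (h4.ofReal_comp).mul_const Complex.I
        have h5 := h3.cexp
        simpa [w] using h5
      have h6 : HasDerivAt (fun s : ℝ => c i * (z i * w s i))
          (c i * (z i * ((τ i : ℂ) * Complex.I))) 0 := (h2.const_mul (z i)).const_mul (c i)
      have h7 : HasDerivAt (fun s : ℝ => (c i * (z i * w s i)).re)
          (c i * (z i * ((τ i : ℂ) * Complex.I))).re 0 :=
        Complex.reCLM.hasFDerivAt.comp_hasDerivAt (0 : ℝ) h6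
      exact h7.const_mul 2
    have h8 := HasDerivAt.fun_sum h1
    have h9 := h8.const_add c0
    simpa [f, Fd] using h9
  have hd := hmin.hasDerivAt_eq_zero hder
  have he : ∀ i, 2 * (c i * (z i * ((τ i : ℂ) * Complex.I))).re =
      -2 * (τ i * (c i * z i).im) := by
    intro i
    simp only [Complex.mul_re, Complex.mul_im, Complex.ofReal_re, Complex.ofReal_im,
      Complex.I_re, Complex.I_im]
    ring
  simp only [he] at hd
  rw [← Finset.mul_sum] at hd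
  linarith

lemma LimPt.rel {m : ℕ} {γ z : Fin m → ℂ} (hγ : ∀ i, ‖γ i‖ = 1) (h : LimPt γ z)
    {g : Fin m → ℤ} {k : ℕ} (hg : (∏ i, γ i ^ g i) ^ k = 1) : (∏ i, z i ^ g i) ^ k = 1 := by
  have hz := h.norm hγ
  have hcont : ContinuousAt (fun w : Fin m → ℂ => (∏ i, w i ^ g i) ^ k) z := by
    refine ContinuousAt.pow ?_ k
    refine tendsto_finsetProd _ fun i _ => ?_
    have : ContinuousAt (fun w : ℂ => w ^ g i) (z i) :=
      continuousAt_zpow₀ _ _ (Or.inl (by intro h0; have := hz i; rw [h0] at this; simp at this))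
    exact this.tendsto.comp (continuous_apply i).continuousAt
  by_contra hne
  have hpos : 0 < ‖(∏ i, z i ^ g i) ^ k - 1‖ := norm_pos_iff.2 (sub_ne_zero.2 hne)
  rw [Metric.continuousAt_iff] at hcont
  obtain ⟨δ, hδ, h1⟩ := hcont _ hpos
  obtain ⟨n, -, h2⟩ := h 0 δ hδ
  have h3 := h1 (x := fun i => γ i ^ n) ((dist_pi_lt_iff hδ).2 fun i => by
    rw [dist_eq_norm]; exact h2 i)
  have h4 : (∏ i, (γ i ^ n) ^ g i) ^ k = 1 := by
    have : ∏ i, (γ i ^ n) ^ g i = (∏ i, γ i ^ g i) ^ n := by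
      rw [← Finset.prod_pow]
      refine Finset.prod_congr rfl fun i _ => ?_
      rw [← zpow_natCast, ← zpow_natCast, ← zpow_mul, ← zpow_mul, mul_comm]
    rw [this, ← pow_mul, mul_comm, pow_mul, hg, one_pow]
  rw [h4, dist_eq_norm, norm_sub_rev] at h3
  exact lt_irrefl _ h3

end Pool.Agent.NarrowFew
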