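import Mathlib
import Pool.Agent.NarrowFew.Core

/-! Finiteness of the zero set for at most three pairs of dominant roots. -/

set_option autoImplicit false

open Filter Topology Polynomial

namespace Pool.Agent.NarrowFew

/-- Roots of unity. -/
def Tor (ζ : ℂ) : Prop := ∃ k : ℕ, 0 < k ∧ ζ ^ k = 1

lemma Tor.of_zpow {ζ : ℂ} {d : ℤ} (hd : d ≠ 0) (h : Tor (ζ ^ d)) : Tor ζ := by
  obtain ⟨k, hk, h1⟩ := h
  refine ⟨d.natAbs * k, Nat.mul_pos (Int.natAbs_pos.2 hd) hk, ?_⟩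
  rcases Int.natAbs_eq d with h2 | h2
  · rw [h2, zpow_natCast] at h1
    rw [pow_mul]; exact h1
  · rw [h2, zpow_neg, zpow_natCast, inv_pow, inv_eq_one] at h1
    rw [pow_mul]; exact h1

/-- The value of a character. -/
noncomputable def chi {m : ℕ} (g : Fin m → ℤ) (z : Fin m → ℂ) : ℂ := ∏ i, z i ^ g i

lemma rel_iff {m : ℕ} (γ : Fin m → ℂ) (g : Fin m → ℤ) : Rel γ g ↔ Tor (chi g γ) := Iff.rfl

lemma chi_comb {m : ℕ} (g h : Fin m → ℤ) (a b : ℤ) (z : Fin m → ℂ) (hz : ∀ i, z i ≠ 0) :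
    chi (fun i => a * g i + b * h i) z = chi g z ^ a * chi h z ^ b := by
  unfold chi
  rw [← Finset.prod_zpow, ← Finset.prod_zpow, ← Finset.prod_mul_distrib]
  refine Finset.prod_congr rfl fun i _ => ?_
  rw [zpow_add₀ (hz i), mul_comm a, mul_comm b, zpow_mul, zpow_mul]

lemma Tor.mul {x y : ℂ} (hx : Tor x) (hy : Tor y) : Tor (x * y) := by
  obtain ⟨k, hk, h1⟩ := hx
  obtain ⟨l, hl, h2⟩ := hy
  refine ⟨k * l, Nat.mul_pos hk hl, ?_⟩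
  rw [mul_pow, pow_mul, h1, one_pow, mul_comm k l, pow_mul, h2, one_pow, one_mul]

lemma Tor.zpow {x : ℂ} (hx : Tor x) (a : ℤ) : Tor (x ^ a) := by
  obtain ⟨k, hk, h1⟩ := hx
  refine ⟨k, hk, ?_⟩
  rw [← zpow_natCast, ← zpow_mul, mul_comm, zpow_mul, zpow_natCast, h1, one_zpow]

lemma Rel.comb {m : ℕ} {γ : Fin m → ℂ} (hγ : ∀ i, γ i ≠ 0) {g h : Fin m → ℤ} (hg : Rel γ g)
    (hh : Rel γ h) (a b : ℤ) : Rel γ (fun i => a * g i + b * h i) := by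
  rw [rel_iff] at *
  rw [chi_comb g h a b γ hγ]
  exact (hg.zpow a).mul (hh.zpow b)

/-- No torsion among the points, their products and quotients. -/
structure Good {m : ℕ} (γ : Fin m → ℂ) : Prop where
  norm : ∀ i, ‖γ i‖ = 1
  one : ∀ i, ¬ Tor (γ i)
  mul : ∀ i j, i ≠ j → ¬ Tor (γ i * γ j)
  div : ∀ i j, i ≠ j → ¬ Tor (γ i * (γ j)⁻¹)

lemma Good.ne {m : ℕ} {γ : Fin m → ℂ} (h : Good γ) (i : Fin m) : γ i ≠ 0 := by
  intro h0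
  have := h.norm i
  rw [h0] at this; simp at this

lemma finite_im (c : ℂ) (hc : c ≠ 0) (y : ℝ) : {w : ℂ | ‖w‖ = 1 ∧ (c * w).im = y}.Finite := by
  have hsub : {w : ℂ | ‖w‖ = 1 ∧ (c * w).im = y} ⊆
      (fun x : ℝ => ((x : ℂ) + y * Complex.I) / c) ''
        ({Real.sqrt (‖c‖ ^ 2 - y ^ 2), -Real.sqrt (‖c‖ ^ 2 - y ^ 2)} : Set ℝ) := by
    rintro w ⟨hw, hy⟩
    have h1 : (c * w).re ^ 2 + (c * w).im ^ 2 = ‖c‖ ^ 2 := by
      have := Complex.sq_norm (c * w)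
      rw [Complex.normSq_apply, norm_mul, hw, mul_one] at this
      rw [this]; ring
    refine ⟨(c * w).re, ?_, ?_⟩
    · have h2 : (c * w).re ^ 2 = ‖c‖ ^ 2 - y ^ 2 := by rw [← h1, hy]; ring
      have h3 : Real.sqrt (‖c‖ ^ 2 - y ^ 2) = |(c * w).re| := by rw [← h2, Real.sqrt_sq_eq_abs]
      rw [h3]
      rcases abs_choice (c * w).re with h4 | h4
      · left; exact h4.symm
      · right; rw [Set.mem_singleton_iff, h4, neg_neg]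
    · simp only
      rw [← hy, Complex.re_add_im, mul_div_cancel_left₀ _ hc]
  exact Set.Finite.subset (Set.Finite.image _ (by simp)) hsub

lemma finite_mu {m : ℕ} (c : Fin m → ℂ) (hc : ∀ i, c i ≠ 0) (n : Fin m → ℝ) (Q : ℝ[X])
    (hQ : Q ≠ 0) :
    {z : Fin m → ℂ | ∃ μ : ℝ, Q.eval μ = 0 ∧ ∀ i, ‖z i‖ = 1 ∧ (c i * z i).im = μ * n i}.Finite := by
  have h1 : {z : Fin m → ℂ | ∃ μ : ℝ, Q.eval μ = 0 ∧ ∀ i, ‖z i‖ = 1 ∧
      (c i * z i).im = μ * n i} ⊆ ⋃ μ ∈ Q.rootSet ℝ,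
        Set.pi Set.univ fun i => {w : ℂ | ‖w‖ = 1 ∧ (c i * w).im = μ * n i} := by
    rintro z ⟨μ, hμ, hz⟩
    refine Set.mem_biUnion (x := μ) ?_ ?_
    · rw [mem_rootSet]
      exact ⟨hQ, by simpa using hμ⟩
    · intro i _
      exact hz i
  refine Set.Finite.subset (Set.Finite.biUnion (Q.rootSet_finite ℝ) fun μ _ => ?_) h1
  exact Set.Finite.pi fun i => finite_im (c i) (hc i) _

lemma poly_ne {q0 q1 q2 q3 q4 : ℝ} (h : q4 ≠ 0 ∨ q3 ≠ 0) :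
    (C q4 * X ^ 8 + C q3 * X ^ 6 + C q2 * X ^ 4 + C q1 * X ^ 2 + C q0 : ℝ[X]) ≠ 0 := by
  intro h0
  rcases h with h | h
  · have := congrArg (fun p : ℝ[X] => p.coeff 8) h0
    simp [coeff_X_pow] at this
    exact h this
  · have := congrArg (fun p : ℝ[X] => p.coeff 6) h0
    simp [coeff_X_pow] at this
    exact h this

/-- Elimination for three ellipses. -/
lemma elim_three (K a1 a2 a3 N1 N2 N3 s x1 x2 x3 : ℝ) (h1 : x1 ^ 2 = a1 - N1 * s)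
    (h2 : x2 ^ 2 = a2 - N2 * s) (h3 : x3 ^ 2 = a3 - N3 * s) (hK : x1 + x2 + x3 = K) :
    ((K ^ 2 + (a3 - N3 * s) - (a1 - N1 * s) - (a2 - N2 * s)) ^ 2
      - 4 * (a1 - N1 * s) * (a2 - N2 * s) - 4 * K ^ 2 * (a3 - N3 * s)) ^ 2
      - 64 * K ^ 2 * (a1 - N1 * s) * (a2 - N2 * s) * (a3 - N3 * s) = 0 := by
  rw [← h1, ← h2, ← h3]
  subst hK
  ring

/-- The rank one case for three pairs. -/
lemma finite_three_rankOne (c : Fin 3 → ℂ) (hc : ∀ i, c i ≠ 0) (c0 : ℝ) (hc0 : c0 ≠ 0)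
    (n : Fin 3 → ℝ)
    (hn : (n 0 ≠ 0 ∧ n 1 ≠ 0 ∧ n 2 ≠ 0) ∨ (n 0 = 0 ∧ n 1 ^ 2 ≠ n 2 ^ 2) ∨
      (n 1 = 0 ∧ n 0 ^ 2 ≠ n 2 ^ 2) ∨ (n 2 = 0 ∧ n 0 ^ 2 ≠ n 1 ^ 2)) :
    {z : Fin 3 → ℂ | (∀ i, ‖z i‖ = 1) ∧ Fd c0 c z = 0 ∧
      ∃ μ : ℝ, ∀ i, (c i * z i).im = μ * n i}.Finite := by
  set K : ℝ := -c0 / 2 with hK
  have hK0 : K ≠ 0 := by rw [hK]; exact div_ne_zero (neg_ne_zero.2 hc0) two_ne_zero
  set a : Fin 3 → ℝ := fun i => ‖c i‖ ^ 2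
  set N : Fin 3 → ℝ := fun i => n i ^ 2 with hN
  set b0 : ℝ := K ^ 2 + a 2 - a 0 - a 1
  set b1 : ℝ := N 0 + N 1 - N 2
  set e0 : ℝ := b0 ^ 2 - 4 * a 0 * a 1 - 4 * K ^ 2 * a 2
  set e1 : ℝ := 2 * b0 * b1 + 4 * a 0 * N 1 + 4 * a 1 * N 0 + 4 * K ^ 2 * N 2
  set e2 : ℝ := b1 ^ 2 - 4 * N 0 * N 1
  set q4 : ℝ := e2 ^ 2 with hq4
  set q3 : ℝ := 2 * e1 * e2 + 64 * K ^ 2 * (N 0 * N 1 * N 2) with hq3
  set q2 : ℝ := e1 ^ 2 + 2 * e0 * e2 -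
    64 * K ^ 2 * (a 0 * N 1 * N 2 + a 1 * N 0 * N 2 + a 2 * N 0 * N 1)
  set q1 : ℝ := 2 * e0 * e1 + 64 * K ^ 2 * (a 0 * a 1 * N 2 + a 0 * a 2 * N 1 + a 1 * a 2 * N 0)
  set q0 : ℝ := e0 ^ 2 - 64 * K ^ 2 * (a 0 * a 1 * a 2)
  have hq : q4 ≠ 0 ∨ q3 ≠ 0 := by
    by_cases he : e2 = 0
    · right
      rw [hq3, he, mul_zero, zero_add]
      have hall : n 0 ≠ 0 ∧ n 1 ≠ 0 ∧ n 2 ≠ 0 := by
        rcases hn with h | ⟨h, h'⟩ | ⟨h, h'⟩ | ⟨h, h'⟩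
        · exact h
        all_goals
          exfalso
          apply h'
          have h3 : (n 0 ^ 2 + n 1 ^ 2 - n 2 ^ 2) ^ 2 - 4 * n 0 ^ 2 * n 1 ^ 2 = 0 := he
          rw [h] at h3
          nlinarith [h3]
      have h0 : N 0 ≠ 0 := pow_ne_zero 2 hall.1
      have h1 : N 1 ≠ 0 := pow_ne_zero 2 hall.2.1
      have h2 : N 2 ≠ 0 := pow_ne_zero 2 hall.2.2
      positivity
    · left
      exact pow_ne_zero 2 he
  refine Set.Finite.subset (finite_mu c hc n _ (poly_ne (q0 := q0) (q1 := q1) (q2 := q2) hq)) ?_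
  rintro z ⟨hz, hF, μ, hμ⟩
  refine ⟨μ, ?_, fun i => ⟨hz i, hμ i⟩⟩
  have hx : ∀ i, (c i * z i).re ^ 2 = a i - N i * μ ^ 2 := by
    intro i
    have := Complex.sq_norm (c i * z i)
    rw [Complex.normSq_apply, norm_mul, hz, mul_one] at this
    have h2 := hμ i
    simp only [a, N]
    rw [this, h2]; ring
  have hs : (c 0 * z 0).re + (c 1 * z 1).re + (c 2 * z 2).re = K := by
    unfold Fd at hF
    rw [Fin.sum_univ_three] at hF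
    rw [hK]; linarith
  have := elim_three K (a 0) (a 1) (a 2) (N 0) (N 1) (N 2) (μ ^ 2) _ _ _ (hx 0) (hx 1) (hx 2) hs
  simp only [eval_add, eval_mul, eval_C, eval_pow, eval_X]
  rw [← this]
  simp only [q0, q1, q2, q3, q4, e0, e1, e2, b0, b1]
  ring

end Pool.Agent.NarrowFew
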