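import Mathlib
import Pool.Agent.NarrowFew.Finite

/-! The zero set on the orbit closure is finite for at most three pairs. -/

set_option autoImplicit false

open Filter Topology Polynomial

namespace Pool.Agent.NarrowFew

/-- The zero set of the dominant part on the orbit closure. -/
def ZSet {m : ℕ} (c0 : ℝ) (c γ : Fin m → ℂ) : Set (Fin m → ℂ) :=
  {z | LimPt γ z ∧ Fd c0 c z = 0}

/-- Rank zero. -/
lemma finite_rankZero {m : ℕ} {c0 : ℝ} {c γ : Fin m → ℂ} (hγ : Good γ) (hc : ∀ i, c i ≠ 0)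
    (hF : AsNonneg c0 c γ) (hR : ∀ g, Rel γ g → g = 0) : (ZSet c0 c γ).Finite := by
  refine Set.Finite.subset (finite_mu c hc 0 X X_ne_zero) ?_
  rintro z ⟨hz, hz0⟩
  refine ⟨0, by simp, fun i => ⟨hz.norm hγ.norm i, ?_⟩⟩
  have h1 := lagrange hγ.norm hF hz hz0 (Pi.single i 1) (by
    intro g hg
    rw [hR g hg]
    simp)
  rw [Finset.sum_eq_single i] at h1
  · simpa using h1
  · intro j _ hj
    rw [Pi.single_eq_of_ne hj, zero_mul]
  · intro h; exact absurd (Finset.mem_univ i) h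

/-- The equation of Lagrange in rank one. -/
lemma lagrange_rankOne {m : ℕ} {c0 : ℝ} {c γ : Fin m → ℂ} (hγ : Good γ)
    (hF : AsNonneg c0 c γ) (n : Fin m → ℤ) (i0 : Fin m) (hn : n i0 ≠ 0)
    (hR : ∀ g, Rel γ g → ∀ i j, g i * n j = g j * n i) {z : Fin m → ℂ} (hz : LimPt γ z)
    (hz0 : Fd c0 c z = 0) : ∃ μ : ℝ, ∀ i, (c i * z i).im = μ * n i := by
  have hn' : (n i0 : ℝ) ≠ 0 := by exact_mod_cast hn
  refine ⟨(c i0 * z i0).im / n i0, fun i => ?_⟩
  by_cases hi : i = i0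
  · rw [hi]; field_simp
  have h1 := lagrange hγ.norm hF hz hz0
    (Pi.single i (n i0 : ℝ) + Pi.single i0 (-(n i : ℝ))) (by
    intro g hg
    have h2 := hR g hg i i0
    simp only [Pi.add_apply, mul_add, Finset.sum_add_distrib]
    rw [Finset.sum_eq_single i, Finset.sum_eq_single i0, Pi.single_eq_same, Pi.single_eq_same]
    · have h3 : (g i : ℝ) * n i0 = g i0 * n i := by exact_mod_cast h2
      linarith
    · intro j _ hj
      rw [Pi.single_eq_of_ne hj, mul_zero]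
    · intro h; exact absurd (Finset.mem_univ _) h
    · intro j _ hj
      rw [Pi.single_eq_of_ne hj, mul_zero]
    · intro h; exact absurd (Finset.mem_univ _) h)
  simp only [Pi.add_apply, add_mul, Finset.sum_add_distrib] at h1
  rw [Finset.sum_eq_single i, Finset.sum_eq_single i0, Pi.single_eq_same, Pi.single_eq_same] at h1
  · field_simp
    linarith
  · intro j _ hj
    rw [Pi.single_eq_of_ne hj, zero_mul]
  · intro h; exact absurd (Finset.mem_univ _) h
  · intro j _ hj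
    rw [Pi.single_eq_of_ne hj, zero_mul]
  · intro h; exact absurd (Finset.mem_univ _) h

/-- One dimensional orbit closure. -/
lemma finite_curve {m : ℕ} {c0 : ℝ} (hc0 : c0 ≠ 0) (c : Fin m → ℂ) (τ : Fin m → ℤ)
    (hτ : ∀ i, τ i ≠ 0) (M : ℕ) (hM : 0 < M) :
    {z : Fin m → ℂ | Fd c0 c z = 0 ∧ ∃ (u : Fin m → ℂ) (ξ : ℂ), (∀ i, u i ^ M = 1) ∧ ‖ξ‖ = 1 ∧
      ∀ i, z i = u i * ξ ^ τ i}.Finite := by
  set U : Set ℂ := {u | u ^ M = 1} with hU
  have hUf : U.Finite := by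
    have h0 : (X ^ M - 1 : ℂ[X]) ≠ 0 := X_pow_sub_C_ne_zero hM 1
    refine Set.Finite.subset ((X ^ M - 1 : ℂ[X]).rootSet_finite ℂ) ?_
    intro u hu
    rw [mem_rootSet]
    refine ⟨h0, ?_⟩
    have : u ^ M = 1 := hu
    simp [this]
  set L : ℕ := ∑ i, (τ i).natAbs with hL
  have hLi : ∀ i, (τ i).natAbs ≤ L := fun i =>
    Finset.single_le_sum (f := fun i => (τ i).natAbs) (fun _ _ => Nat.zero_le _)
      (Finset.mem_univ i)
  let P : (Fin m → ℂ) → ℂ[X] := fun u => C (c0 : ℂ) * X ^ L +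
    ∑ i, (C (c i * u i) * X ^ ((L : ℤ) + τ i).toNat +
      C ((starRingEnd ℂ) (c i * u i)) * X ^ ((L : ℤ) - τ i).toNat)
  have hPne : ∀ u, P u ≠ 0 := by
    intro u h0
    have h1 := congrArg (fun p : ℂ[X] => p.coeff L) h0
    simp only [P, coeff_add, coeff_C_mul, coeff_X_pow, finsetSum_coeff, coeff_zero] at h1
    rw [Finset.sum_eq_zero] at h1
    · simp at h1
      exact hc0 h1
    · intro i _
      have h2 := hLi i
      have h3 := hτ i
      rw [if_neg (by omega), if_neg (by omega)]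
      simp
  have hsub : {z : Fin m → ℂ | Fd c0 c z = 0 ∧ ∃ (u : Fin m → ℂ) (ξ : ℂ), (∀ i, u i ^ M = 1) ∧
      ‖ξ‖ = 1 ∧ ∀ i, z i = u i * ξ ^ τ i} ⊆
      ⋃ u ∈ (Set.pi Set.univ fun _ : Fin m => U), (fun (ξ : ℂ) (i : Fin m) => u i * ξ ^ τ i) ''
        ((P u).rootSet ℂ) := by
    rintro z ⟨hF, u, ξ, hu, hξ, hz⟩
    refine Set.mem_biUnion (x := u) (fun i _ => hu i) ?_
    refine ⟨ξ, ?_, by funext i; exact (hz i).symm⟩
    rw [mem_rootSet]
    refine ⟨hPne u, ?_⟩
    have hξ0 : ξ ≠ 0 := by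
      intro h; rw [h] at hξ; simp at hξ
    have hconj : (starRingEnd ℂ) ξ = ξ⁻¹ := by
      rw [Complex.inv_def, Complex.normSq_eq_norm_sq, hξ]; simp
    have hterm : ∀ i, (C (c i * u i) * X ^ ((L : ℤ) + τ i).toNat +
        C ((starRingEnd ℂ) (c i * u i)) * X ^ ((L : ℤ) - τ i).toNat : ℂ[X]).eval ξ =
        ξ ^ L * ((2 * (c i * z i).re : ℝ) : ℂ) := by
      intro i
      have h2 := hLi i
      have e1 : ξ ^ ((L : ℤ) + τ i).toNat = ξ ^ L * ξ ^ τ i := by
        rw [← zpow_natCast, ← zpow_natCast, Int.toNat_of_nonneg (by omega), zpow_add₀ hξ0]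
      have e2 : ξ ^ ((L : ℤ) - τ i).toNat = ξ ^ L * (ξ ^ τ i)⁻¹ := by
        rw [← zpow_natCast, ← zpow_natCast, Int.toNat_of_nonneg (by omega), zpow_sub₀ hξ0,
          div_eq_mul_inv]
      have e3 : (starRingEnd ℂ) (c i * z i) = (starRingEnd ℂ) (c i * u i) * (ξ ^ τ i)⁻¹ := by
        rw [hz i, ← mul_assoc, map_mul (starRingEnd ℂ) (c i * u i), map_zpow₀, hconj, inv_zpow]
      rw [eval_add, eval_mul, eval_mul, eval_C, eval_C, eval_pow, eval_pow, eval_X, e1, e2]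
      have e4 : ((2 * (c i * z i).re : ℝ) : ℂ) = c i * z i + (starRingEnd ℂ) (c i * z i) := by
        rw [Complex.add_conj]
      rw [e4, e3, hz i]
      ring
    have h1 : (P u).eval ξ = ξ ^ L * ((Fd c0 c z : ℝ) : ℂ) := by
      simp only [P]
      rw [eval_add, eval_finsetSum, Finset.sum_congr rfl fun i _ => hterm i, ← Finset.mul_sum]
      unfold Fd
      rw [eval_mul, eval_C, eval_pow, eval_X]
      push_cast
      ring
    rw [coe_aeval_eq_eval, h1, hF]
    simp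
  refine Set.Finite.subset (Set.Finite.biUnion (Set.Finite.pi fun _ => hUf) fun u _ => ?_) hsub
  exact ((P u).rootSet_finite ℂ).image _

end Pool.Agent.NarrowFew
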