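import Mathlib
import Pool.Agent.NarrowFew.Rank

/-! The zero set on the orbit closure is finite for at most three pairs: assembly. -/

set_option autoImplicit false

open Filter Topology Polynomial

namespace Pool.Agent.NarrowFew

lemma exists_unit_root {z : ℂ} (hz : ‖z‖ = 1) (t : ℤ) (ht : t ≠ 0) :
    ∃ ξ : ℂ, ‖ξ‖ = 1 ∧ ξ ^ t = z := by
  obtain ⟨a, ha⟩ := (Complex.norm_eq_one_iff z).1 hz
  refine ⟨Complex.exp (((a / t : ℝ) : ℂ) * Complex.I), Complex.norm_exp_ofReal_mul_I _, ?_⟩
  rw [← Complex.exp_int_mul, ← ha]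
  congr 1
  have : (t : ℂ) ≠ 0 := by exact_mod_cast ht
  push_cast
  field_simp

lemma tor_pow_eq {ζ : ℂ} {k M : ℕ} (h : ζ ^ k = 1) (hd : k ∣ M) : ζ ^ M = 1 := by
  obtain ⟨l, rfl⟩ := hd
  rw [pow_mul, h, one_pow]

/-- One dimensional orbit closure: all relations orthogonal to a vector without zero entries. -/
lemma finite_rankHigh {m : ℕ} {c0 : ℝ} (hc0 : c0 ≠ 0) {c γ : Fin m → ℂ} (hγ : Good γ)
    (i0 : Fin m) (τ : Fin m → ℤ) (hτ : ∀ i, τ i ≠ 0)
    (hrel : ∀ j, j ≠ i0 → Rel γ (fun i => if i = j then τ i0 else if i = i0 then -(τ j) else 0)) :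
    (ZSet c0 c γ).Finite := by
  classical
  choose! k hk0 hk using hrel
  set M : ℕ := (τ i0).natAbs * ∏ j ∈ Finset.univ.erase i0, k j with hM
  have hM0 : 0 < M := Nat.mul_pos (Int.natAbs_pos.2 (hτ i0))
    (Finset.prod_pos fun j hj => hk0 j (Finset.ne_of_mem_erase hj))
  refine Set.Finite.subset (finite_curve hc0 c τ hτ M hM0) ?_
  rintro z ⟨hz, hz0⟩
  refine ⟨hz0, ?_⟩
  have hzn := hz.norm hγ.norm
  obtain ⟨ξ, hξ, hξz⟩ := exists_unit_root (hzn i0) (τ i0) (hτ i0)
  have hξ0 : ξ ≠ 0 := by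
    intro h; rw [h] at hξ; simp at hξ
  refine ⟨fun i => z i * (ξ ^ τ i)⁻¹, ξ, fun i => ?_, hξ, fun i => ?_⟩
  · by_cases hi : i = i0
    · subst hi
      simp only
      rw [hξz, mul_inv_cancel₀, one_pow]
      rw [← hξz]; exact zpow_ne_zero _ hξ0
    · have h1 := hz.rel hγ.norm (hk i hi)
      have h2 : ∏ l, z l ^ (if l = i then τ i0 else if l = i0 then -(τ i) else 0) =
          z i ^ τ i0 * (z i0 ^ τ i)⁻¹ := by
        rw [← Finset.mul_prod_erase _ _ (Finset.mem_univ i),
          ← Finset.mul_prod_erase _ _ (Finset.mem_erase.2 ⟨Ne.symm hi, Finset.mem_univ i0⟩)]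
        rw [Finset.prod_eq_one, mul_one]
        · rw [if_pos rfl, if_neg (Ne.symm hi), if_pos rfl, zpow_neg]
        · intro l hl
          rw [Finset.mem_erase, Finset.mem_erase] at hl
          rw [if_neg hl.2.1, if_neg hl.1, zpow_zero]
      rw [h2] at h1
      have h3 : (z i * (ξ ^ τ i)⁻¹) ^ τ i0 = z i ^ τ i0 * (z i0 ^ τ i)⁻¹ := by
        rw [mul_zpow, inv_zpow, ← zpow_mul, mul_comm (τ i) (τ i0), zpow_mul, hξz]
      have h4 : ((z i * (ξ ^ τ i)⁻¹) ^ (τ i0).natAbs) ^ k i = 1 := by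
        rcases Int.natAbs_eq (τ i0) with h5 | h5
        · rw [← zpow_natCast _ (τ i0).natAbs, ← h5, h3, h1]
        · have h6 : (z i * (ξ ^ τ i)⁻¹) ^ (τ i0).natAbs =
              ((z i * (ξ ^ τ i)⁻¹) ^ τ i0)⁻¹ := by
            have h7 : ((τ i0).natAbs : ℤ) = -(τ i0) := by omega
            generalize z i * (ξ ^ τ i)⁻¹ = w
            rw [← zpow_neg, ← h7, zpow_natCast]
          rw [h6, h3, inv_pow, h1, inv_one]
      rw [← pow_mul] at h4
      refine tor_pow_eq h4 ?_
      rw [hM]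
      exact Nat.mul_dvd_mul_left _ (Finset.dvd_prod_of_mem k
        (Finset.mem_erase.2 ⟨hi, Finset.mem_univ i⟩))
  · simp only
    rw [mul_assoc, inv_mul_cancel₀ (zpow_ne_zero _ hξ0), mul_one]

lemma not_rel_single {m : ℕ} {γ : Fin m → ℂ} (hγ : Good γ) (i0 : Fin m) (g : Fin m → ℤ)
    (h0 : ∀ i, i ≠ i0 → g i = 0) (h1 : g i0 ≠ 0) : ¬ Rel γ g := by
  intro h
  have h2 : chi g γ = γ i0 ^ g i0 := by
    unfold chi
    rw [Finset.prod_eq_single i0]
    · intro j _ hj; rw [h0 j hj, zpow_zero]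
    · intro h; exact absurd (Finset.mem_univ _) h
  rw [rel_iff, h2] at h
  exact hγ.one i0 (h.of_zpow h1)

lemma not_rel_pair {m : ℕ} {γ : Fin m → ℂ} (hγ : Good γ) (i0 i1 : Fin m) (hi : i0 ≠ i1)
    (g : Fin m → ℤ) (h0 : ∀ i, i ≠ i0 → i ≠ i1 → g i = 0) (h1 : g i0 ≠ 0)
    (h2 : g i0 = g i1 ∨ g i0 = -(g i1)) : ¬ Rel γ g := by
  intro h
  have h3 : chi g γ = γ i0 ^ g i0 * γ i1 ^ g i1 := by
    unfold chi
    rw [← Finset.mul_prod_erase _ _ (Finset.mem_univ i0),
      ← Finset.mul_prod_erase _ _ (Finset.mem_erase.2 ⟨Ne.symm hi, Finset.mem_univ i1⟩),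
      Finset.prod_eq_one, mul_one]
    intro l hl
    rw [Finset.mem_erase, Finset.mem_erase] at hl
    rw [h0 l hl.2.1 hl.1, zpow_zero]
  rw [rel_iff, h3] at h
  rcases h2 with h4 | h4
  · rw [← h4, ← mul_zpow] at h
    exact hγ.mul i0 i1 hi (h.of_zpow h1)
  · have h5 : g i1 = -(g i0) := by rw [h4, neg_neg]
    rw [h5, zpow_neg, ← inv_zpow, ← mul_zpow] at h
    exact hγ.div i0 i1 hi (h.of_zpow h1)

lemma sq_ne {a b : ℤ} (h : ¬ (a = b ∨ a = -b)) : (a : ℝ) ^ 2 ≠ (b : ℝ) ^ 2 := by
  intro h1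
  apply h
  have h2 : a ^ 2 = b ^ 2 := by exact_mod_cast h1
  exact sq_eq_sq_iff_eq_or_eq_neg.1 h2

/-- Three pairs. -/
theorem finite_three {c0 : ℝ} (hc0 : c0 ≠ 0) {c γ : Fin 3 → ℂ} (hγ : Good γ)
    (hc : ∀ i, c i ≠ 0) (hF : AsNonneg c0 c γ) : (ZSet c0 c γ).Finite := by
  by_cases hR : ∀ g, Rel γ g → g = 0
  · exact finite_rankZero hγ hc hF hR
  push Not at hR
  obtain ⟨n, hn, hn0⟩ := hR
  by_cases hR1 : ∀ g, Rel γ g → ∀ i j, g i * n j = g j * n i
  · obtain ⟨i0, hi0⟩ := Function.ne_iff.1 hn0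
    have hi0' : n i0 ≠ 0 := hi0
    refine Set.Finite.subset (finite_three_rankOne c hc c0 hc0 (fun i => (n i : ℝ)) ?_) ?_
    · have hs : ∀ i, (n i = 0 → ∃ j, j ≠ i ∧ n j ≠ 0) := by
        intro i hi
        exact ⟨i0, fun h => hi0' (h ▸ hi), hi0'⟩
      have key : ∀ i j k : Fin 3, i ≠ j → j ≠ k → i ≠ k → n i = 0 →
          (n j : ℝ) ^ 2 ≠ (n k : ℝ) ^ 2 := by
        intro i j k hij hjk hik hi
        apply sq_ne
        intro h
        have hall : ∀ l : Fin 3, l = i ∨ l = j ∨ l = k := by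
          intro l; omega
        by_cases hj : n j = 0
        · have hk : n k = 0 := by rcases h with h | h <;> omega
          exact hi0' (by rcases hall i0 with h | h | h <;> rw [h] <;> assumption)
        · exact not_rel_pair hγ j k hjk n (fun l h1 h2 => by
            rcases hall l with h3 | h3 | h3
            · rw [h3]; exact hi
            · exact absurd h3 h1
            · exact absurd h3 h2) hj h hn
      by_cases h0 : n 0 = 0
      · right; left
        exact ⟨by rw [h0]; simp, key 0 1 2 (by decide) (by decide) (by decide) h0⟩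
      by_cases h1 : n 1 = 0
      · right; right; left
        exact ⟨by rw [h1]; simp, key 1 0 2 (by decide) (by decide) (by decide) h1⟩
      by_cases h2 : n 2 = 0
      · right; right; right
        exact ⟨by rw [h2]; simp, key 2 0 1 (by decide) (by decide) (by decide) h2⟩
      left
      exact ⟨by exact_mod_cast h0, by exact_mod_cast h1, by exact_mod_cast h2⟩
    · rintro z ⟨hz, hz0⟩
      exact ⟨hz.norm hγ.norm, hz0, lagrange_rankOne hγ hF n i0 hi0' hR1 hz hz0⟩
  · push Not at hR1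
    obtain ⟨g, hg, i, j, hij⟩ := hR1
    -- the cross product
    set t0 : ℤ := n 1 * g 2 - n 2 * g 1 with ht0
    set t1 : ℤ := n 2 * g 0 - n 0 * g 2 with ht1
    set t2 : ℤ := n 0 * g 1 - n 1 * g 0 with ht2
    have hne := fun i => hγ.ne i
    have r2 : Rel γ ![-t1, t0, 0] := by
      have := Rel.comb hne hn hg (g 2) (-(n 2))
      convert this using 1
      funext i; fin_cases i <;> simp [ht0, ht1] <;> ring
    have r1 : Rel γ ![t2, 0, -t0] := by
      have := Rel.comb hne hn hg (g 1) (-(n 1))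
      convert this using 1
      funext i; fin_cases i <;> simp [ht0, ht2] <;> ring
    have r0 : Rel γ ![0, -t2, t1] := by
      have := Rel.comb hne hn hg (g 0) (-(n 0))
      convert this using 1
      funext i; fin_cases i <;> simp [ht1, ht2] <;> ring
    have hsome : t0 ≠ 0 ∨ t1 ≠ 0 ∨ t2 ≠ 0 := by
      by_contra hcon
      push Not at hcon
      obtain ⟨a0, a1, a2⟩ := hcon
      apply hij
      fin_cases i <;> fin_cases j <;> simp <;> linarith
    have z01 : t0 = 0 → t1 = 0 := by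
      intro h
      by_contra h'
      refine not_rel_single hγ 0 _ ?_ (by simpa using h') r2
      intro i hi; fin_cases i
      · exact absurd rfl hi
      · exact h
      · rfl
    have z10 : t1 = 0 → t0 = 0 := by
      intro h
      by_contra h'
      refine not_rel_single hγ 1 _ ?_ (by simpa using h') r2
      intro i hi; fin_cases i
      · change -t1 = 0
        rw [h]; rfl
      · exact absurd rfl hi
      · rfl
    have z02 : t0 = 0 → t2 = 0 := by
      intro h
      by_contra h'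
      refine not_rel_single hγ 0 _ ?_ (by simpa using h') r1
      intro i hi; fin_cases i
      · exact absurd rfl hi
      · rfl
      · change -t0 = 0
        rw [h]; rfl
    have z20 : t2 = 0 → t0 = 0 := by
      intro h
      by_contra h'
      refine not_rel_single hγ 2 _ ?_ (by simpa using h') r1
      intro i hi; fin_cases i
      · exact h
      · rfl
      · exact absurd rfl hi
    have h0 : t0 ≠ 0 := by
      intro h
      rcases hsome with h1 | h1 | h1
      · exact h1 h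
      · exact h1 (z01 h)
      · exact h1 (z02 h)
    have h1 : t1 ≠ 0 := fun h => h0 (z10 h)
    have h2 : t2 ≠ 0 := fun h => h0 (z20 h)
    refine finite_rankHigh hc0 hγ 0 ![t0, t1, t2] (by
      intro i; fin_cases i
      · exact h0
      · exact h1
      · exact h2) ?_
    intro j hj
    fin_cases j
    · exact absurd rfl hj
    · convert r2 using 1
      funext i; fin_cases i <;> simp
    · have := Rel.comb hne r1 r1 (-1) 0
      convert this using 1
      funext i; fin_cases i <;> simp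

/-- One pair. -/
theorem finite_one {c0 : ℝ} {c γ : Fin 1 → ℂ} (hγ : Good γ)
    (hc : ∀ i, c i ≠ 0) (hF : AsNonneg c0 c γ) : (ZSet c0 c γ).Finite := by
  refine finite_rankZero hγ hc hF fun g hg => ?_
  by_contra hne
  obtain ⟨i, hi⟩ := Function.ne_iff.1 hne
  refine not_rel_single hγ i g (fun j hj => absurd (Subsingleton.elim j i) hj) hi hg

/-- Two pairs. -/
theorem finite_two {c0 : ℝ} (hc0 : c0 ≠ 0) {c γ : Fin 2 → ℂ} (hγ : Good γ)
    (hc : ∀ i, c i ≠ 0) (hF : AsNonneg c0 c γ) : (ZSet c0 c γ).Finite := by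
  by_cases hR : ∀ g, Rel γ g → g = 0
  · exact finite_rankZero hγ hc hF hR
  push Not at hR
  obtain ⟨n, hn, hn0⟩ := hR
  have h0 : n 0 ≠ 0 := by
    intro h
    refine not_rel_single hγ 1 n (fun j hj => ?_) ?_ hn
    · fin_cases j
      · exact h
      · exact absurd rfl hj
    · intro h1
      apply hn0
      funext i; fin_cases i
      · exact h
      · exact h1
  have h1 : n 1 ≠ 0 := by
    intro h
    refine not_rel_single hγ 0 n (fun j hj => ?_) h0 hn
    fin_cases j
    · exact absurd rfl hj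
    · exact h
  refine finite_rankHigh hc0 hγ 0 ![n 1, -n 0] (by
    intro i; fin_cases i
    · exact h1
    · exact neg_ne_zero.2 h0) ?_
  intro j hj
  fin_cases j
  · exact absurd rfl hj
  · convert hn using 1
    funext i; fin_cases i <;> simp

/-- At most three pairs. -/
theorem finite_le_three {m : ℕ} (hm : m ≤ 3) {c0 : ℝ} (hc0 : c0 ≠ 0) {c γ : Fin m → ℂ}
    (hγ : Good γ) (hc : ∀ i, c i ≠ 0) (hF : AsNonneg c0 c γ) : (ZSet c0 c γ).Finite := by
  interval_cases m
  · exact Set.toFinite _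
  · exact finite_one hγ hc hF
  · exact finite_two hc0 hγ hc hF
  · exact finite_three hc0 hγ hc hF

end Pool.Agent.NarrowFew
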