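import Mathlib
import Pool.Agent.NarrowFew.Main

/-! Passage from the torus to sequences. -/

set_option autoImplicit false

open Filter Topology

namespace Pool.Agent.NarrowFew

lemma Fd_continuous {m : ℕ} (c0 : ℝ) (c : Fin m → ℂ) : Continuous (Fd c0 c) := by
  unfold Fd
  refine continuous_const.add (continuous_finsetSum _ fun i _ => ?_)
  exact continuous_const.mul (Complex.continuous_re.comp
    (continuous_const.mul (continuous_apply i)))

/-- The set of limit values along the subsequences on which the sequence tends to zero. -/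
lemma contact_finite {m : ℕ} {c0 : ℝ} {c γ : Fin m → ℂ} (hγ : ∀ i, ‖γ i‖ = 1)
    (hfin : (ZSet c0 c γ).Finite) (w : ℕ → ℝ)
    (hw : Tendsto (fun n => w n - Fd c0 c (fun i => γ i ^ n)) atTop (𝓝 0)) (i : Fin m) (κ : ℂ) :
    {ζ : ℂ | ∃ φ : ℕ → ℕ, StrictMono φ ∧ Tendsto (fun n => w (φ n)) atTop (𝓝 0) ∧
      Tendsto (fun n => κ * γ i ^ φ n) atTop (𝓝 ζ)}.Finite := by
  refine Set.Finite.subset (hfin.image fun z => κ * z i) ?_
  rintro ζ ⟨φ, hφ, h1, h2⟩
  have hcomp : IsCompact (Set.pi Set.univ fun _ : Fin m => Metric.sphere (0 : ℂ) 1) :=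
    isCompact_univ_pi fun _ => isCompact_sphere _ _
  obtain ⟨z, -, ψ, hψ, hz⟩ := hcomp.tendsto_subseq (x := fun n => fun i => γ i ^ φ n)
    (fun n => by
      intro i _
      simp [hγ])
  have hzi : ∀ i, Tendsto (fun n => γ i ^ φ (ψ n)) atTop (𝓝 (z i)) := by
    intro i
    exact ((continuous_apply i).tendsto z).comp hz
  refine ⟨z, ⟨?_, ?_⟩, ?_⟩
  · intro N ε hε
    have h3 : ∀ᶠ n in atTop, ∀ i, ‖γ i ^ φ (ψ n) - z i‖ < ε := by
      rw [Filter.eventually_all]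
      intro i
      have := Metric.tendsto_nhds.1 (hzi i) ε hε
      simpa [dist_eq_norm] using this
    have h4 : ∀ᶠ n in atTop, N ≤ φ (ψ n) :=
      (hφ.comp hψ).tendsto_atTop.eventually (eventually_ge_atTop N)
    obtain ⟨n, h5, h6⟩ := (h3.and h4).exists
    exact ⟨φ (ψ n), h6, h5⟩
  · have h3 : Tendsto (fun n => Fd c0 c (fun i => γ i ^ φ (ψ n))) atTop (𝓝 (Fd c0 c z)) :=
      ((Fd_continuous c0 c).tendsto z).comp hz
    have h4 : Tendsto (fun n => w (φ (ψ n)) -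
        (w (φ (ψ n)) - Fd c0 c (fun i => γ i ^ φ (ψ n)))) atTop (𝓝 (0 - 0)) :=
      (h1.comp hψ.tendsto_atTop).sub (hw.comp (hφ.comp hψ).tendsto_atTop)
    simp only [sub_sub_cancel, sub_zero] at h4
    exact tendsto_nhds_unique h3 h4
  · have h3 : Tendsto (fun n => κ * γ i ^ φ (ψ n)) atTop (𝓝 (κ * z i)) := (hzi i).const_mul κ
    exact tendsto_nhds_unique h3 (h2.comp hψ.tendsto_atTop)

/-- Means of a sequence. -/
noncomputable def mn (a : ℕ → ℂ) (M : ℕ) : ℂ := (M : ℂ)⁻¹ * ∑ m ∈ Finset.range M, a m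

lemma mn_pow {z : ℂ} (hz : ‖z‖ = 1) (hz1 : z ≠ 1) : Tendsto (mn fun m => z ^ m) atTop (𝓝 0) := by
  have hz2 : 0 < ‖z - 1‖ := norm_pos_iff.2 (sub_ne_zero.2 hz1)
  rw [tendsto_zero_iff_norm_tendsto_zero]
  have hb : ∀ M : ℕ, ‖mn (fun m => z ^ m) M‖ ≤ (2 / ‖z - 1‖) * (M : ℝ)⁻¹ := by
    intro M
    unfold mn
    rw [geom_sum_eq hz1, norm_mul, norm_inv, Complex.norm_natCast, norm_div, mul_comm]
    refine mul_le_mul_of_nonneg_right ?_ (by positivity)
    refine div_le_div_of_nonneg_right ?_ hz2.le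
    refine (norm_sub_le _ _).trans ?_
    rw [norm_pow, hz, one_pow, norm_one]; norm_num
  refine squeeze_zero (fun _ => norm_nonneg _) hb ?_
  have : Tendsto (fun M : ℕ => (2 / ‖z - 1‖) * (M : ℝ)⁻¹) atTop (𝓝 ((2 / ‖z - 1‖) * 0)) :=
    (tendsto_inv_atTop_nhds_zero_nat).const_mul _
  rwa [mul_zero] at this

lemma mn_const (c : ℂ) : Tendsto (mn fun _ => c) atTop (𝓝 c) := by
  refine tendsto_const_nhds.congr' ?_
  filter_upwards [eventually_gt_atTop 0] with M hM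
  unfold mn
  have : (M : ℂ) ≠ 0 := by exact_mod_cast hM.ne'
  rw [Finset.sum_const, Finset.card_range, nsmul_eq_mul]
  field_simp

lemma mn_zero {a : ℕ → ℂ} (h : Tendsto a atTop (𝓝 0)) : Tendsto (mn a) atTop (𝓝 0) := by
  have := h.cesaro_smul
  refine this.congr fun M => ?_
  unfold mn
  rw [Complex.real_smul]
  push_cast
  rfl

lemma mn_add (a b : ℕ → ℂ) (M : ℕ) : mn (fun m => a m + b m) M = mn a M + mn b M := by
  unfold mn
  rw [Finset.sum_add_distrib, mul_add]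

lemma mn_sum {ι : Type*} (s : Finset ι) (a : ι → ℕ → ℂ) (M : ℕ) :
    mn (fun m => ∑ i ∈ s, a i m) M = ∑ i ∈ s, mn (a i) M := by
  unfold mn
  rw [Finset.sum_comm, Finset.mul_sum]

lemma mn_mul (c : ℂ) (a : ℕ → ℂ) (M : ℕ) : mn (fun m => c * a m) M = c * mn a M := by
  unfold mn
  rw [← Finset.mul_sum]; ring

/-- Means of almost periodic sums. -/
lemma mn_tendsto (D : Finset ℂ) (C : ℂ → ℂ) (hD : ∀ x ∈ D, ‖x‖ = 1) (G : ℕ → ℂ)
    (hG : Tendsto (fun m => G m - ∑ x ∈ D, C x * x ^ m) atTop (𝓝 0)) (y : ℂ) (hy : ‖y‖ = 1) :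
    Tendsto (mn fun m => G m * (y⁻¹) ^ m) atTop (𝓝 (if y ∈ D then C y else 0)) := by
  classical
  have hy0 : y ≠ 0 := by intro h; rw [h] at hy; simp at hy
  have h1 : Tendsto (fun m => (G m - ∑ x ∈ D, C x * x ^ m) * (y⁻¹) ^ m) atTop (𝓝 0) := by
    rw [tendsto_zero_iff_norm_tendsto_zero] at hG ⊢
    refine hG.congr fun m => ?_
    rw [norm_mul, norm_pow, norm_inv, hy, inv_one, one_pow, mul_one]
  have h2 : ∀ M, mn (fun m => G m * (y⁻¹) ^ m) M =
      mn (fun m => (G m - ∑ x ∈ D, C x * x ^ m) * (y⁻¹) ^ m) M +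
        ∑ x ∈ D, C x * mn (fun m => (x * y⁻¹) ^ m) M := by
    intro M
    have e : (fun m => G m * (y⁻¹) ^ m) = fun m => (G m - ∑ x ∈ D, C x * x ^ m) * (y⁻¹) ^ m +
        ∑ x ∈ D, C x * (x * y⁻¹) ^ m := by
      funext m
      rw [sub_mul, Finset.sum_mul]
      have : ∑ x ∈ D, C x * x ^ m * (y⁻¹) ^ m = ∑ x ∈ D, C x * (x * y⁻¹) ^ m :=
        Finset.sum_congr rfl fun x _ => by rw [mul_pow]; ring
      rw [this]; ring
    rw [e, mn_add, mn_sum]
    congr 1
    exact Finset.sum_congr rfl fun x _ => mn_mul _ _ _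
  have h3 : Tendsto (fun M => ∑ x ∈ D, C x * mn (fun m => (x * y⁻¹) ^ m) M) atTop
      (𝓝 (∑ x ∈ D, C x * (if x = y then 1 else 0))) := by
    refine tendsto_finsetSum _ fun x hx => Tendsto.const_mul _ ?_
    by_cases hxy : x = y
    · rw [if_pos hxy]
      have : (fun m : ℕ => (x * y⁻¹) ^ m) = fun _ => 1 := by
        funext m; rw [hxy, mul_inv_cancel₀ hy0, one_pow]
      rw [this]
      exact mn_const 1
    · rw [if_neg hxy]
      refine mn_pow ?_ ?_
      · rw [norm_mul, norm_inv, hy, hD x hx, inv_one, mul_one]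
      · intro h
        exact hxy ((mul_inv_eq_one₀ hy0).1 h)
  have h4 := (mn_zero h1).add h3
  have h5 : (0 : ℂ) + ∑ x ∈ D, C x * (if x = y then 1 else 0) = if y ∈ D then C y else 0 := by
    rw [zero_add]
    simp [Finset.sum_ite_eq']
  rw [h5] at h4
  exact h4.congr fun M => (h2 M).symm

end Pool.Agent.NarrowFew
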