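import Mathlib

/-! An identity for sums of square roots with infinitely many solutions. -/

set_option autoImplicit false

open Filter Topology

namespace Pool.Agent.NarrowFew

lemma sqrt_analytic (b N : ℝ) (hb : 0 < b) (hN : 0 ≤ N) (t : ℝ) :
    AnalyticAt ℝ (fun t : ℝ => Real.sqrt (b + N * t ^ 2)) t := by
  have hpos : ∀ t : ℝ, 0 < b + N * t ^ 2 := fun t => by positivity
  have e : (fun t : ℝ => Real.sqrt (b + N * t ^ 2)) =
      fun t => Real.exp (Real.log (b + N * t ^ 2) * (1 / 2)) := by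
    funext t
    rw [Real.sqrt_eq_rpow, Real.rpow_def_of_pos (hpos t)]
  rw [e]
  have h1 : AnalyticAt ℝ (fun t : ℝ => b + N * t ^ 2) t := by fun_prop
  have h2 : AnalyticAt ℝ (fun t : ℝ => Real.log (b + N * t ^ 2)) t := h1.log (hpos t)
  exact (h2.mul analyticAt_const).rexp

lemma sqrt_asymp (b N : ℝ) (hb : 0 ≤ b) (hN : 0 < N) :
    Tendsto (fun t : ℝ => Real.sqrt (b + N * t ^ 2) - Real.sqrt N * t) atTop (𝓝 0) := by
  have hsN : 0 < Real.sqrt N := Real.sqrt_pos.2 hN
  have h1 : Tendsto (fun t : ℝ => (b / Real.sqrt N) * t⁻¹) atTop (𝓝 ((b / Real.sqrt N) * 0)) :=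
    tendsto_inv_atTop_zero.const_mul _
  rw [mul_zero] at h1
  refine squeeze_zero' ?_ ?_ h1
  · filter_upwards [eventually_gt_atTop 0] with t ht
    have : Real.sqrt N * t ≤ Real.sqrt (b + N * t ^ 2) := by
      rw [Real.le_sqrt (by positivity) (by positivity), mul_pow, Real.sq_sqrt hN.le]
      linarith
    linarith
  · filter_upwards [eventually_gt_atTop 0] with t ht
    have hst : 0 < Real.sqrt N * t := by positivity
    rw [sub_le_iff_le_add, Real.sqrt_le_left (by positivity)]
    have h2 : (b / Real.sqrt N * t⁻¹ + Real.sqrt N * t) ^ 2 =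
        N * t ^ 2 + 2 * b + (b / Real.sqrt N * t⁻¹) ^ 2 := by
      have h3 : (Real.sqrt N * t) ^ 2 = N * t ^ 2 := by rw [mul_pow, Real.sq_sqrt hN.le]
      have h4 : b / Real.sqrt N * t⁻¹ * (Real.sqrt N * t) = b := by
        field_simp
      calc _ = (Real.sqrt N * t) ^ 2 + 2 * (b / Real.sqrt N * t⁻¹ * (Real.sqrt N * t)) +
            (b / Real.sqrt N * t⁻¹) ^ 2 := by ring
        _ = _ := by rw [h3, h4]
    rw [h2]
    nlinarith [sq_nonneg (b / Real.sqrt N * t⁻¹)]

lemma sqrt_identity {m : ℕ} (a N ε : Fin m → ℝ) (K : ℝ) (ha : ∀ i, 0 < a i)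
    (hN : ∀ i, 0 ≤ N i)
    (hinf : {s : ℝ | 0 ≤ s ∧ (∀ i, N i * s ≤ a i) ∧
      ∑ i, ε i * Real.sqrt (a i - N i * s) = K}.Infinite) :
    ∑ i ∈ Finset.univ.filter (fun i => N i = 0), ε i * Real.sqrt (a i) = K := by
  classical
  by_cases hall : ∀ i, N i = 0
  · obtain ⟨s, -, -, hs⟩ := hinf.nonempty
    rw [Finset.filter_true_of_mem (fun i _ => hall i), ← hs]
    refine Finset.sum_congr rfl fun i _ => ?_
    rw [hall i, zero_mul, sub_zero]
  push Not at hall
  obtain ⟨i2, hi2⟩ := hall
  obtain ⟨i1, hi1, hmin⟩ := Finset.exists_min_image (Finset.univ.filter fun i => N i ≠ 0)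
    (fun i => a i / N i) ⟨i2, by simp [hi2]⟩
  have hN1 : 0 < N i1 := lt_of_le_of_ne (hN i1) (Ne.symm (Finset.mem_filter.1 hi1).2)
  set M0 : ℝ := a i1 / N i1 with hM0
  have hM0pos : 0 < M0 := div_pos (ha i1) hN1
  have hb0 : ∀ i, 0 ≤ a i - N i * M0 := by
    intro i
    by_cases h : N i = 0
    · rw [h, zero_mul, sub_zero]; exact (ha i).le
    · have h1 := hmin i (by simp [h])
      have h2 : 0 < N i := lt_of_le_of_ne (hN i) (Ne.symm h)
      rw [le_div_iff₀ h2] at h1
      linarith
  set h : ℝ → ℝ := fun t => ∑ i, ε i * (if a i - N i * M0 = 0 then Real.sqrt (N i) * t else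
    Real.sqrt ((a i - N i * M0) + N i * t ^ 2)) - K with hh
  have hana : AnalyticOnNhd ℝ h Set.univ := by
    intro t _
    refine AnalyticAt.sub ?_ analyticAt_const
    refine Finset.analyticAt_fun_sum _ fun i _ => ?_
    refine analyticAt_const.mul ?_
    by_cases hi : a i - N i * M0 = 0
    · simp only [hi, if_true]
      fun_prop
    · simp only [hi, if_false]
      exact sqrt_analytic _ _ (lt_of_le_of_ne (hb0 i) (Ne.symm hi)) (hN i) t
  have hval : ∀ t : ℝ, 0 ≤ t → h t = ∑ i, ε i * Real.sqrt (a i - N i * (M0 - t ^ 2)) - K := by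
    intro t ht
    rw [hh]
    simp only
    congr 1
    refine Finset.sum_congr rfl fun i _ => ?_
    congr 1
    have e : a i - N i * (M0 - t ^ 2) = (a i - N i * M0) + N i * t ^ 2 := by ring
    rw [e]
    split_ifs with hi
    · rw [hi, zero_add, Real.sqrt_mul (hN i), Real.sqrt_sq ht]
    · rfl
  have hinf2 : {t : ℝ | t ∈ Set.Icc 0 (Real.sqrt M0) ∧ h t = 0}.Infinite := by
    intro hfin
    apply hinf
    refine (hfin.image fun t => M0 - t ^ 2).subset ?_
    rintro s ⟨hs0, hs1, hs2⟩
    have hsM : s ≤ M0 := by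
      rw [hM0, le_div_iff₀ hN1]
      linarith [hs1 i1]
    have hsq : Real.sqrt (M0 - s) ^ 2 = M0 - s := Real.sq_sqrt (by linarith)
    refine ⟨Real.sqrt (M0 - s), ⟨⟨Real.sqrt_nonneg _, Real.sqrt_le_sqrt (by linarith)⟩, ?_⟩, ?_⟩
    · rw [hval _ (Real.sqrt_nonneg _), hsq, sub_eq_zero, ← hs2]
      refine Finset.sum_congr rfl fun i _ => ?_
      congr 3
      ring
    · simp only
      rw [hsq]; ring
  obtain ⟨x, -, hx⟩ := hinf2.exists_accPt_of_subset_isCompact isCompact_Icc (fun t ht => ht.1)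
  have hzero : Set.EqOn h 0 Set.univ := by
    refine hana.eqOn_zero_of_preconnected_of_frequently_eq_zero isPreconnected_univ
      (Set.mem_univ x) ?_
    rw [accPt_iff_frequently_nhdsNE] at hx
    exact hx.mono fun t ht => ht.2
  -- the limit at infinity
  set A : ℝ := ∑ i, ε i * Real.sqrt (N i) with hA
  set B : ℝ := ∑ i ∈ Finset.univ.filter (fun i => N i = 0), ε i * Real.sqrt (a i) - K with hB
  have hlim : Tendsto (fun t : ℝ => h t - (A * t + B)) atTop (𝓝 0) := by
    have h1 : ∀ i, Tendsto (fun t : ℝ => ε i * ((if a i - N i * M0 = 0 then Real.sqrt (N i) * t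
        else Real.sqrt ((a i - N i * M0) + N i * t ^ 2)) - Real.sqrt (N i) * t -
          (if N i = 0 then Real.sqrt (a i) else 0))) atTop (𝓝 (ε i * 0)) := by
      intro i
      refine Tendsto.const_mul _ ?_
      by_cases hi : a i - N i * M0 = 0
      · have hNi : N i ≠ 0 := by
          intro h0
          rw [h0, zero_mul, sub_zero] at hi
          exact (ha i).ne' hi
        simp only [hi, if_true, hNi, if_false]
        simp
      · by_cases hNi : N i = 0
        · simp [hNi, (ha i).ne']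
        · simp only [hi, if_false, hNi]
          simp only [sub_zero]
          exact sqrt_asymp _ _ (hb0 i) (lt_of_le_of_ne (hN i) (Ne.symm hNi))
    have h2 := tendsto_finsetSum Finset.univ fun i _ => h1 i
    simp only [mul_zero, Finset.sum_const_zero] at h2
    refine h2.congr fun t => ?_
    rw [hh, hA, hB]
    simp only
    rw [Finset.sum_filter, Finset.sum_mul, sub_sub, ← add_sub_assoc, add_sub_assoc]
    have h3 : ∀ i, ε i * ((if a i - N i * M0 = 0 then Real.sqrt (N i) * t
        else Real.sqrt ((a i - N i * M0) + N i * t ^ 2)) - Real.sqrt (N i) * t -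
          (if N i = 0 then Real.sqrt (a i) else 0)) =
        ε i * (if a i - N i * M0 = 0 then Real.sqrt (N i) * t
        else Real.sqrt ((a i - N i * M0) + N i * t ^ 2)) - (ε i * Real.sqrt (N i) * t +
          (if N i = 0 then ε i * Real.sqrt (a i) else 0)) := by
      intro i
      split_ifs <;> ring
    rw [Finset.sum_congr rfl fun i _ => h3 i, Finset.sum_sub_distrib, Finset.sum_add_distrib]
    ring
  have hlim2 : Tendsto (fun t : ℝ => A * t + B) atTop (𝓝 0) := by
    have := hlim.neg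
    rw [neg_zero] at this
    refine this.congr fun t => ?_
    have h0 : h t = 0 := hzero (Set.mem_univ t)
    rw [h0]; ring
  have hlim3 : Tendsto (fun t : ℝ => 2 * (A * t + B) - (A * (2 * t) + B)) atTop
      (𝓝 (2 * 0 - 0)) := by
    refine (hlim2.const_mul 2).sub ?_
    exact hlim2.comp (tendsto_id.const_mul_atTop (two_pos))
  have hB0 : B = 0 := by
    have h1 : (fun t : ℝ => 2 * (A * t + B) - (A * (2 * t) + B)) = fun _ => B := by
      funext t; ring
    rw [h1, mul_zero, sub_zero] at hlim3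
    exact tendsto_nhds_unique tendsto_const_nhds hlim3
  rw [hB] at hB0
  linarith

end Pool.Agent.NarrowFew
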