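import Mathlib
import Pool.Agent.NarrowFew.SqrtId
import Pool.Agent.NarrowFew.Seq

/-! Finiteness of the zero set when there is at most one multiplicative relation. -/

set_option autoImplicit false

open Filter Topology

namespace Pool.Agent.NarrowFew

lemma norm_mn_le' (a : ℕ → ℝ) (b : ℕ → ℂ) (h : ∀ m, ‖b m‖ ≤ a m) (M : ℕ) :
    ‖mn b M‖ ≤ ‖mn (fun m => (a m : ℂ)) M‖ := by
  unfold mn
  rw [norm_mul, norm_mul]
  refine mul_le_mul_of_nonneg_left ?_ (norm_nonneg _)
  rw [← Complex.ofReal_sum, Complex.norm_real, Real.norm_eq_abs]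
  refine ((norm_sum_le _ _).trans (Finset.sum_le_sum fun m _ => h m)).trans (le_abs_self _)

/-- A nonnegative almost periodic sequence of mean zero vanishes. -/
lemma coeff_zero_of_nonneg {m : ℕ} {γ : Fin m → ℂ} (hγ : Good γ) (c : Fin m → ℂ)
    (hB : ∀ n : ℕ, 0 ≤ ∑ i, 2 * (c i * γ i ^ n).re) (j : Fin m) : c j = 0 := by
  have hconj : ∀ i, (starRingEnd ℂ) (γ i) = (γ i)⁻¹ := by
    intro i
    rw [Complex.inv_def, Complex.normSq_eq_norm_sq, hγ.norm]; simp
  have hform : ∀ n : ℕ, ((∑ i, 2 * (c i * γ i ^ n).re : ℝ) : ℂ) =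
      ∑ i, (c i * γ i ^ n + (starRingEnd ℂ) (c i) * ((γ i)⁻¹) ^ n) := by
    intro n
    rw [Complex.ofReal_sum]
    refine Finset.sum_congr rfl fun i _ => ?_
    have : ((2 * (c i * γ i ^ n).re : ℝ) : ℂ) = c i * γ i ^ n +
        (starRingEnd ℂ) (c i * γ i ^ n) := by rw [Complex.add_conj]
    rw [this, map_mul, map_pow, hconj]
  have hgen : ∀ y : ℂ, ‖y‖ = 1 → Tendsto (mn fun n => ((∑ i, 2 * (c i * γ i ^ n).re : ℝ) : ℂ) *
      y ^ n) atTop (𝓝 (∑ i, (c i * (if γ i * y = 1 then 1 else 0) +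
        (starRingEnd ℂ) (c i) * (if (γ i)⁻¹ * y = 1 then 1 else 0)))) := by
    intro y hy
    have e : (fun n => ((∑ i, 2 * (c i * γ i ^ n).re : ℝ) : ℂ) * y ^ n) =
        fun n => ∑ i, (c i * (γ i * y) ^ n + (starRingEnd ℂ) (c i) * ((γ i)⁻¹ * y) ^ n) := by
      funext n
      rw [hform, Finset.sum_mul]
      refine Finset.sum_congr rfl fun i _ => ?_
      rw [mul_pow, mul_pow]; ring
    rw [e]
    have h1 : ∀ z : ℂ, ‖z‖ = 1 → Tendsto (mn fun n => z ^ n) atTop
        (𝓝 (if z = 1 then 1 else 0)) := by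
      intro z hz
      split_ifs with h
      · have : (fun n : ℕ => z ^ n) = fun _ => 1 := by funext n; rw [h, one_pow]
        rw [this]; exact mn_const 1
      · exact mn_pow hz h
    have h2 : ∀ M, mn (fun n => ∑ i, (c i * (γ i * y) ^ n +
        (starRingEnd ℂ) (c i) * ((γ i)⁻¹ * y) ^ n)) M =
        ∑ i, (c i * mn (fun n => (γ i * y) ^ n) M +
          (starRingEnd ℂ) (c i) * mn (fun n => ((γ i)⁻¹ * y) ^ n) M) := by
      intro M
      rw [mn_sum]
      refine Finset.sum_congr rfl fun i _ => ?_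
      rw [mn_add, mn_mul, mn_mul]
    refine Tendsto.congr (fun M => (h2 M).symm) ?_
    refine tendsto_finsetSum _ fun i _ => ?_
    refine Tendsto.add (Tendsto.const_mul _ (h1 _ ?_)) (Tendsto.const_mul _ (h1 _ ?_))
    · rw [norm_mul, hγ.norm, hy, mul_one]
    · rw [norm_mul, norm_inv, hγ.norm, hy, inv_one, mul_one]
  have hne1 : ∀ i, γ i ≠ 1 := fun i h => hγ.one i ⟨1, one_pos, by rw [h, one_pow]⟩
  have k0 : Tendsto (mn fun n => ((∑ i, 2 * (c i * γ i ^ n).re : ℝ) : ℂ)) atTop (𝓝 0) := by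
    have h1 := hgen 1 norm_one
    have h2 : ∑ i, (c i * (if γ i * 1 = 1 then 1 else 0) +
        (starRingEnd ℂ) (c i) * (if (γ i)⁻¹ * 1 = 1 then 1 else 0)) = 0 := by
      refine Finset.sum_eq_zero fun i _ => ?_
      rw [mul_one, mul_one, if_neg (hne1 i), if_neg (fun h => hne1 i (inv_eq_one.1 h)), mul_zero,
        mul_zero, add_zero]
    rw [h2] at h1
    simpa using h1
  have hj0 := hγ.ne j
  have kj : Tendsto (mn fun n => ((∑ i, 2 * (c i * γ i ^ n).re : ℝ) : ℂ) * ((γ j)⁻¹) ^ n) atTop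
      (𝓝 (c j)) := by
    have h1 := hgen (γ j)⁻¹ (by rw [norm_inv, hγ.norm, inv_one])
    have h2 : ∑ i, (c i * (if γ i * (γ j)⁻¹ = 1 then 1 else 0) +
        (starRingEnd ℂ) (c i) * (if (γ i)⁻¹ * (γ j)⁻¹ = 1 then 1 else 0)) = c j := by
      have h3 : ∀ i, (if (γ i)⁻¹ * (γ j)⁻¹ = 1 then (1 : ℂ) else 0) = 0 := by
        intro i
        rw [if_neg]
        intro h
        have h4 : γ i * γ j = 1 := by
          rw [← mul_inv, inv_eq_one] at h
          exact h
        by_cases hij : i = j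
        · rw [hij] at h4
          exact hγ.one j ⟨2, two_pos, by rw [pow_two, h4]⟩
        · exact hγ.mul i j hij ⟨1, one_pos, by rw [h4, one_pow]⟩
      simp only [h3, mul_zero, add_zero]
      rw [Finset.sum_eq_single j]
      · rw [mul_inv_cancel₀ hj0, if_pos rfl, mul_one]
      · intro i _ hij
        rw [if_neg, mul_zero]
        intro h
        exact hγ.div i j hij ⟨1, one_pos, by rw [h, one_pow]⟩
      · intro h; exact absurd (Finset.mem_univ j) h
    rw [h2] at h1
    exact h1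
  have hle : ‖c j‖ ≤ ‖(0 : ℂ)‖ := by
    refine le_of_tendsto_of_tendsto' kj.norm k0.norm fun M => ?_
    refine norm_mn_le' (fun n => ∑ i, 2 * (c i * γ i ^ n).re) _ (fun n => ?_) M
    rw [norm_mul, norm_pow, norm_inv, hγ.norm, inv_one, one_pow, mul_one, Complex.norm_real,
      Real.norm_of_nonneg (hB n)]
  rw [norm_zero] at hle
  exact norm_le_zero_iff.1 hle

/-- No identity: the contradiction with nonnegativity. -/
lemma no_identity {m : ℕ} {c0 : ℝ} {c γ : Fin m → ℂ} (hγ : Good γ) (hc : ∀ i, c i ≠ 0)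
    (hF : AsNonneg c0 c γ) (n : Fin m → ℤ) (i0 : Fin m) (hn : n i0 ≠ 0)
    (hR : ∀ g, Rel γ g → ∀ i j, g i * n j = g j * n i) (ε : Fin m → ℝ)
    (hε : ∀ i, ε i = 1 ∨ ε i = -1)
    (hid : ∑ i ∈ Finset.univ.filter (fun i => n i = 0), ε i * ‖c i‖ = -c0 / 2) : False := by
  classical
  set c' : Fin m → ℂ := fun i => if n i = 0 then 0 else c i with hc'
  have hB : ∀ q : ℕ, 0 ≤ ∑ i, 2 * (c' i * γ i ^ q).re := by
    intro q
    set w : Fin m → ℂ := fun i => if n i = 0 then (ε i * ‖c i‖ / c i) * ((γ i) ^ q)⁻¹ else 1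
      with hw
    have hwn : ∀ i, ‖w i‖ = 1 := by
      intro i
      rw [hw]
      simp only
      split_ifs with h
      · have h1 : ‖((ε i : ℝ) : ℂ)‖ = 1 := by
          rw [Complex.norm_real]
          rcases hε i with h2 | h2 <;> rw [h2] <;> simp
        rw [norm_mul, norm_inv, norm_pow, hγ.norm, one_pow, inv_one, mul_one, norm_div, norm_mul,
          h1, one_mul, Complex.norm_real, norm_norm]
        exact div_self (norm_ne_zero_iff.2 (hc i))
      · exact norm_one
    have hH : ∀ g, Rel γ g → ∏ i, w i ^ g i = 1 := by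
      intro g hg
      refine Finset.prod_eq_one fun i _ => ?_
      by_cases h : n i = 0
      · have h1 := hR g hg i i0
        rw [h, mul_zero] at h1
        rw [(mul_eq_zero.1 h1).resolve_right hn, zpow_zero]
      · rw [hw]
        simp only
        rw [if_neg h, one_zpow]
    have hlim : LimPt γ (fun i => γ i ^ q * w i) := by
      intro N η hη
      obtain ⟨r, hr, h1⟩ := DD7719.kronecker γ w hγ.norm hwn hH 1 one_pos N η hη
      refine ⟨q + r, by omega, fun i => ?_⟩
      have e : γ i ^ (q + r) - γ i ^ q * w i = γ i ^ q * (γ i ^ (1 * r) - w i) := by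
        rw [one_mul, pow_add]; ring
      rw [e, norm_mul, norm_pow, hγ.norm, one_pow, one_mul]
      exact h1 i
    have h0 := hlim.nonneg hF
    unfold Fd at h0
    have h2 : ∀ i, 2 * (c i * (γ i ^ q * w i)).re =
        (if n i = 0 then 2 * (ε i * ‖c i‖) else 0) + 2 * (c' i * γ i ^ q).re := by
      intro i
      rw [hw, hc']
      simp only
      split_ifs with h
      · have h3 : c i * (γ i ^ q * ((ε i * ‖c i‖ / c i) * ((γ i) ^ q)⁻¹)) =
            ((ε i * ‖c i‖ : ℝ) : ℂ) := by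
          have h4 : γ i ^ q ≠ 0 := pow_ne_zero _ (hγ.ne i)
          have h5 := hc i
          push_cast
          field_simp
        rw [h3, Complex.ofReal_re]
        simp
      · rw [mul_one, zero_add]
    rw [Finset.sum_congr rfl fun i _ => h2 i, Finset.sum_add_distrib, ← Finset.sum_filter,
      ← Finset.mul_sum, hid] at h0
    linarith
  have h1 := coeff_zero_of_nonneg hγ c' hB i0
  rw [hc'] at h1
  simp only [if_neg hn] at h1
  exact hc i0 h1

/-- Rank one, any number of pairs. -/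
theorem finite_rankOne {m : ℕ} {c0 : ℝ} {c γ : Fin m → ℂ} (hγ : Good γ) (hc : ∀ i, c i ≠ 0)
    (hF : AsNonneg c0 c γ) (n : Fin m → ℤ) (i0 : Fin m) (hn : n i0 ≠ 0)
    (hR : ∀ g, Rel γ g → ∀ i j, g i * n j = g j * n i) : (ZSet c0 c γ).Finite := by
  classical
  set K : ℝ := -c0 / 2 with hK
  set a : Fin m → ℝ := fun i => ‖c i‖ ^ 2 with ha
  set N : Fin m → ℝ := fun i => (n i : ℝ) ^ 2 with hN
  set E : (Fin m → Bool) → Fin m → ℝ := fun σ i => if σ i then 1 else -1 with hE
  have hfin : ∀ σ : Fin m → Bool, {s : ℝ | 0 ≤ s ∧ (∀ i, N i * s ≤ a i) ∧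
      ∑ i, E σ i * Real.sqrt (a i - N i * s) = K}.Finite := by
    intro σ
    by_contra hinf
    have h1 := sqrt_identity a N (E σ) K (fun i => by
      rw [ha]
      have := norm_pos_iff.2 (hc i)
      positivity) (fun i => sq_nonneg _) hinf
    refine no_identity hγ hc hF n i0 hn hR (E σ) (fun i => ?_) ?_
    · rw [hE]
      simp only
      split_ifs
      · exact Or.inl rfl
      · exact Or.inr rfl
    · rw [← hK, ← h1]
      refine Finset.sum_congr ?_ fun i _ => ?_
      · ext i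
        simp only [Finset.mem_filter, Finset.mem_univ, true_and]
        rw [hN]
        simp
      · rw [ha]
        simp only
        rw [Real.sqrt_sq (norm_nonneg _)]
  have hsub : ZSet c0 c γ ⊆ ⋃ σ : Fin m → Bool, ⋃ s ∈ {s : ℝ | 0 ≤ s ∧ (∀ i, N i * s ≤ a i) ∧
      ∑ i, E σ i * Real.sqrt (a i - N i * s) = K},
      (⋃ μ ∈ ({Real.sqrt s, -Real.sqrt s} : Set ℝ),
        Set.pi Set.univ fun i => {w : ℂ | ‖w‖ = 1 ∧ (c i * w).im = μ * n i}) := by
    rintro z ⟨hz, hz0⟩
    obtain ⟨μ, hμ⟩ := lagrange_rankOne hγ hF n i0 hn hR hz hz0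
    have hzn := hz.norm hγ.norm
    have hx : ∀ i, (c i * z i).re ^ 2 = a i - N i * μ ^ 2 := by
      intro i
      have := Complex.sq_norm (c i * z i)
      rw [Complex.normSq_apply, norm_mul, hzn, mul_one] at this
      have h2 := hμ i
      simp only [ha, hN]
      rw [this, h2]; ring
    have hsum : ∑ i, (c i * z i).re = K := by
      unfold Fd at hz0
      rw [← Finset.mul_sum] at hz0
      rw [hK]; linarith
    rw [Set.mem_iUnion]
    refine ⟨fun i => decide (0 ≤ (c i * z i).re), ?_⟩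
    refine Set.mem_biUnion (x := μ ^ 2) ⟨sq_nonneg _, fun i => ?_, ?_⟩ ?_
    · have := sq_nonneg (c i * z i).re
      rw [hx i] at this
      linarith
    · rw [← hsum]
      refine Finset.sum_congr rfl fun i _ => ?_
      rw [← hx i, Real.sqrt_sq_eq_abs, hE]
      simp only [decide_eq_true_eq]
      split_ifs with h
      · rw [one_mul, abs_of_nonneg h]
      · rw [abs_of_neg (not_le.1 h)]; ring
    · refine Set.mem_biUnion (x := μ) ?_ (fun i _ => ⟨hzn i, hμ i⟩)
      rw [Real.sqrt_sq_eq_abs]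
      rcases abs_choice μ with h | h
      · left; exact h.symm
      · right; rw [Set.mem_singleton_iff, h, neg_neg]
  refine Set.Finite.subset (Set.finite_iUnion fun σ => Set.Finite.biUnion (hfin σ) fun s _ =>
    Set.Finite.biUnion (by simp) fun μ _ => ?_) hsub
  exact Set.Finite.pi fun i => finite_im (c i) (hc i) _

/-- At most one relation. -/
theorem finite_rank_le_one {m : ℕ} {c0 : ℝ} {c γ : Fin m → ℂ} (hγ : Good γ) (hc : ∀ i, c i ≠ 0)
    (hF : AsNonneg c0 c γ)
    (hR : ∀ g h, Rel γ g → Rel γ h → ∀ i j, g i * h j = g j * h i) : (ZSet c0 c γ).Finite := by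
  by_cases h0 : ∀ g, Rel γ g → g = 0
  · exact finite_rankZero hγ hc hF h0
  · push Not at h0
    obtain ⟨n, hn, hne⟩ := h0
    obtain ⟨i0, hi0⟩ := Function.ne_iff.1 hne
    exact finite_rankOne hγ hc hF n i0 hi0 fun g hg => hR g n hg hn

/-- One dimensional orbit closures: the points are pairwise dependent. -/
theorem finite_corank_one {m : ℕ} {c0 : ℝ} (hc0 : c0 ≠ 0) {c γ : Fin m → ℂ} (hγ : Good γ)
    (hD : ∀ i j, i ≠ j → ∃ a b : ℤ, (a ≠ 0 ∨ b ≠ 0) ∧ Tor (γ i ^ a * γ j ^ b)) :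
    (ZSet c0 c γ).Finite := by
  classical
  by_cases hm : m = 0
  · subst hm
    exact Set.toFinite _
  set i0 : Fin m := ⟨0, Nat.pos_of_ne_zero hm⟩
  have h1 : ∀ j, ∃ a b : ℤ, a ≠ 0 ∧ b ≠ 0 ∧ (j ≠ i0 → Tor (γ j ^ a * γ i0 ^ b)) := by
    intro j
    by_cases hj : j = i0
    · exact ⟨1, 1, one_ne_zero, one_ne_zero, fun h => absurd hj h⟩
    obtain ⟨a, b, hab, ht⟩ := hD j i0 hj
    refine ⟨a, b, ?_, ?_, fun _ => ht⟩
    · intro ha
      rw [ha, zpow_zero, one_mul] at ht
      rcases hab with h | h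
      · exact h ha
      · exact hγ.one i0 (ht.of_zpow h)
    · intro hb
      rw [hb, zpow_zero, mul_one] at ht
      rcases hab with h | h
      · exact hγ.one j (ht.of_zpow h)
      · exact h hb
  choose a b ha hb hab using h1
  set A : ℤ := ∏ j, a j with hA
  have hA0 : A ≠ 0 := Finset.prod_ne_zero_iff.2 fun j _ => ha j
  set τ : Fin m → ℤ := fun j => if j = i0 then A else -(b j * ∏ l ∈ Finset.univ.erase j, a l)
    with hτ
  refine finite_rankHigh hc0 hγ i0 τ (fun j => ?_) (fun j hj => ?_)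
  · rw [hτ]
    simp only
    split_ifs
    · exact hA0
    · exact neg_ne_zero.2 (mul_ne_zero (hb j) (Finset.prod_ne_zero_iff.2 fun l _ => ha l))
  · rw [rel_iff]
    have h2 : chi (fun i => if i = j then τ i0 else if i = i0 then -(τ j) else 0) γ =
        (γ j ^ a j * γ i0 ^ b j) ^ (∏ l ∈ Finset.univ.erase j, a l) := by
      unfold chi
      rw [← Finset.mul_prod_erase _ _ (Finset.mem_univ j),
        ← Finset.mul_prod_erase _ _ (Finset.mem_erase.2 ⟨Ne.symm hj, Finset.mem_univ i0⟩),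
        Finset.prod_eq_one, mul_one]
      · beta_reduce
        rw [if_pos rfl, if_neg (Ne.symm hj), if_pos rfl, mul_zpow, ← zpow_mul, ← zpow_mul, hτ]
        simp only [if_true, if_neg hj, neg_neg]
        rw [hA, ← Finset.mul_prod_erase _ a (Finset.mem_univ j)]
      · intro l hl
        rw [Finset.mem_erase, Finset.mem_erase] at hl
        beta_reduce
        rw [if_neg hl.2.1, if_neg hl.1, zpow_zero]
    rw [h2]
    exact (hab j hj).zpow _

end Pool.Agent.NarrowFew
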