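import Mathlib
import Pool.Agent.NarrowFew.Seq

/-! The dominant part of a positive simple sequence. -/

set_option autoImplicit false

open Filter Topology

namespace Pool.Agent.NarrowFew

lemma norm_mn_le (a : ℕ → ℝ) (b : ℕ → ℂ) (h : ∀ m, ‖b m‖ ≤ a m) (M : ℕ) :
    ‖mn b M‖ ≤ ‖mn (fun m => (a m : ℂ)) M‖ := by
  unfold mn
  rw [norm_mul, norm_mul]
  refine mul_le_mul_of_nonneg_left ?_ (norm_nonneg _)
  rw [← Complex.ofReal_sum, Complex.norm_real, Real.norm_eq_abs]
  refine ((norm_sum_le _ _).trans (Finset.sum_le_sum fun m _ => h m)).trans (le_abs_self _)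

/-- Nonnegativity forces the constant term, conjugation symmetry. -/
lemma dominant (D : Finset ℂ) (C : ℂ → ℂ) (hD : ∀ x ∈ D, ‖x‖ = 1) (hC : ∀ x ∈ D, C x ≠ 0)
    (hne : D.Nonempty) (G : ℕ → ℝ) (hpos : ∀ m, 0 ≤ G m)
    (hG : Tendsto (fun m => (G m : ℂ) - ∑ x ∈ D, C x * x ^ m) atTop (𝓝 0)) :
    1 ∈ D ∧ (∃ c0 : ℝ, 0 < c0 ∧ C 1 = c0) ∧
      ∀ x ∈ D, (starRingEnd ℂ) x ∈ D ∧ C ((starRingEnd ℂ) x) = (starRingEnd ℂ) (C x) := by
  classical
  have key := mn_tendsto D C hD (fun m => (G m : ℂ)) hG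
  have k1 : Tendsto (mn fun m => (G m : ℂ)) atTop (𝓝 (if (1 : ℂ) ∈ D then C 1 else 0)) := by
    have := key 1 norm_one
    simpa using this
  have hle : ∀ x ∈ D, ‖C x‖ ≤ ‖(if (1 : ℂ) ∈ D then C 1 else 0)‖ := by
    intro x hx
    have h1 := key x (hD x hx)
    rw [if_pos hx] at h1
    refine le_of_tendsto_of_tendsto' h1.norm k1.norm fun M => ?_
    refine norm_mn_le G _ (fun m => ?_) M
    rw [norm_mul, norm_pow, norm_inv, hD x hx, inv_one, one_pow, mul_one, Complex.norm_real,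
      Real.norm_of_nonneg (hpos m)]
  have h1D : (1 : ℂ) ∈ D := by
    by_contra h
    obtain ⟨x, hx⟩ := hne
    have := hle x hx
    rw [if_neg h, norm_zero] at this
    exact hC x hx (norm_le_zero_iff.1 this)
  rw [if_pos h1D] at k1
  refine ⟨h1D, ?_, ?_⟩
  · -- the mean is real and nonnegative
    have hre : ∀ M, mn (fun m => (G m : ℂ)) M = (((M : ℝ)⁻¹ * ∑ m ∈ Finset.range M, G m : ℝ) : ℂ) := by
      intro M
      unfold mn
      push_cast
      rfl
    have him : Tendsto (fun M => (mn (fun m => (G m : ℂ)) M).im) atTop (𝓝 (C 1).im) :=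
      (Complex.continuous_im.tendsto _).comp k1
    have hrr : Tendsto (fun M => (mn (fun m => (G m : ℂ)) M).re) atTop (𝓝 (C 1).re) :=
      (Complex.continuous_re.tendsto _).comp k1
    have i0 : (C 1).im = 0 := by
      refine tendsto_nhds_unique him ?_
      refine tendsto_const_nhds.congr fun M => ?_
      rw [hre, Complex.ofReal_im]
    have r0 : 0 ≤ (C 1).re := by
      refine ge_of_tendsto' hrr fun M => ?_
      rw [hre, Complex.ofReal_re]
      exact mul_nonneg (by positivity) (Finset.sum_nonneg fun m _ => hpos m)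
    have hC1 : C 1 = ((C 1).re : ℂ) := by
      apply Complex.ext
      · rw [Complex.ofReal_re]
      · rw [Complex.ofReal_im, i0]
    refine ⟨(C 1).re, lt_of_le_of_ne r0 fun h => hC 1 h1D ?_, hC1⟩
    rw [hC1, ← h]; simp
  · intro x hx
    have hx1 := hD x hx
    have h1 := key x hx1
    rw [if_pos hx] at h1
    have hy1 : ‖(starRingEnd ℂ) x‖ = 1 := by rw [Complex.norm_conj, hx1]
    have h2 := key _ hy1
    have h3 : Tendsto (fun M => (starRingEnd ℂ) (mn (fun m => (G m : ℂ) * (x⁻¹) ^ m) M)) atTop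
        (𝓝 ((starRingEnd ℂ) (C x))) := (Complex.continuous_conj.tendsto _).comp h1
    have h4 : ∀ M, (starRingEnd ℂ) (mn (fun m => (G m : ℂ) * (x⁻¹) ^ m) M) =
        mn (fun m => (G m : ℂ) * (((starRingEnd ℂ) x)⁻¹) ^ m) M := by
      intro M
      unfold mn
      rw [map_mul, map_inv₀, map_natCast, map_sum]
      congr 1
      refine Finset.sum_congr rfl fun m _ => ?_
      rw [map_mul, map_pow, map_inv₀, Complex.conj_ofReal]
    have h5 := tendsto_nhds_unique (h3.congr h4) h2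
    by_cases hy : (starRingEnd ℂ) x ∈ D
    · rw [if_pos hy] at h5
      exact ⟨hy, h5.symm⟩
    · rw [if_neg hy] at h5
      exfalso
      apply hC x hx
      have := congrArg (starRingEnd ℂ) h5
      simpa using this

/-- The dominant part in real form. -/
lemma dominant_sum (D : Finset ℂ) (C : ℂ → ℂ) (h1 : (1 : ℂ) ∈ D) (c0 : ℝ) (hc0 : C 1 = c0)
    (hconj : ∀ x ∈ D, (starRingEnd ℂ) x ∈ D ∧ C ((starRingEnd ℂ) x) = (starRingEnd ℂ) (C x))
    (hreal : ∀ x ∈ D, x.im = 0 → x = 1) (m : ℕ) :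
    ∑ x ∈ D, C x * x ^ m =
      ((c0 + ∑ x ∈ D.filter (fun x => 0 < x.im), 2 * (C x * x ^ m).re : ℝ) : ℂ) := by
  classical
  have e1 : ∑ x ∈ D, C x * x ^ m = ∑ x ∈ D.filter (fun x => 0 < x.im), C x * x ^ m +
      ∑ x ∈ D.filter (fun x => ¬ 0 < x.im), C x * x ^ m :=
    (Finset.sum_filter_add_sum_filter_not D _ _).symm
  have e2 : D.filter (fun x => ¬ 0 < x.im) = insert 1 (D.filter (fun x => x.im < 0)) := by
    ext x
    simp only [Finset.mem_filter, Finset.mem_insert, not_lt]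
    constructor
    · rintro ⟨h, h'⟩
      rcases h'.lt_or_eq with h2 | h2
      · exact Or.inr ⟨h, h2⟩
      · exact Or.inl (hreal x h h2)
    · rintro (h | ⟨h, h'⟩)
      · rw [h]; exact ⟨h1, by simp⟩
      · exact ⟨h, h'.le⟩
  have e3 : (1 : ℂ) ∉ D.filter (fun x => x.im < 0) := by simp
  have e4 : ∑ x ∈ D.filter (fun x => x.im < 0), C x * x ^ m =
      ∑ x ∈ D.filter (fun x => 0 < x.im), (starRingEnd ℂ) (C x * x ^ m) := by
    refine Finset.sum_nbij' (fun x => (starRingEnd ℂ) x) (fun x => (starRingEnd ℂ) x) ?_ ?_ ?_ ?_ ?_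
    · intro x hx
      rw [Finset.mem_filter] at hx ⊢
      refine ⟨(hconj x hx.1).1, ?_⟩
      rw [Complex.conj_im]; linarith [hx.2]
    · intro x hx
      rw [Finset.mem_filter] at hx ⊢
      refine ⟨(hconj x hx.1).1, ?_⟩
      rw [Complex.conj_im]; linarith [hx.2]
    · intro x _; simp
    · intro x _; simp
    · intro x hx
      rw [Finset.mem_filter] at hx
      rw [(hconj x hx.1).2, map_mul, map_pow]
      simp
  rw [e1, e2, Finset.sum_insert e3, e4, hc0, one_pow, mul_one]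
  have e5 : ∀ x : ℂ, ((2 * (C x * x ^ m).re : ℝ) : ℂ) = C x * x ^ m +
      (starRingEnd ℂ) (C x * x ^ m) := fun x => by rw [Complex.add_conj]
  rw [Complex.ofReal_add, Complex.ofReal_sum, Finset.sum_congr rfl fun x _ => e5 x,
    Finset.sum_add_distrib]
  ring

lemma dominant_card (D : Finset ℂ) (h1 : (1 : ℂ) ∈ D)
    (hconj : ∀ x ∈ D, (starRingEnd ℂ) x ∈ D)
    (hreal : ∀ x ∈ D, x.im = 0 → x = 1) :
    D.card = 1 + 2 * (D.filter (fun x => 0 < x.im)).card := by
  classical
  have e2 : D.filter (fun x => ¬ 0 < x.im) = insert 1 (D.filter (fun x => x.im < 0)) := by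
    ext x
    simp only [Finset.mem_filter, Finset.mem_insert, not_lt]
    constructor
    · rintro ⟨h, h'⟩
      rcases h'.lt_or_eq with h2 | h2
      · exact Or.inr ⟨h, h2⟩
      · exact Or.inl (hreal x h h2)
    · rintro (h | ⟨h, h'⟩)
      · rw [h]; exact ⟨h1, by simp⟩
      · exact ⟨h, h'.le⟩
  have e3 : (1 : ℂ) ∉ D.filter (fun x => x.im < 0) := by simp
  have e4 : (D.filter (fun x => x.im < 0)).card = (D.filter (fun x => 0 < x.im)).card := by
    refine Finset.card_nbij' (fun x => (starRingEnd ℂ) x) (fun x => (starRingEnd ℂ) x) ?_ ?_ ?_ ?_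
    · intro x hx
      rw [Finset.mem_coe, Finset.mem_filter] at hx ⊢
      refine ⟨hconj x hx.1, ?_⟩
      rw [Complex.conj_im]; linarith [hx.2]
    · intro x hx
      rw [Finset.mem_coe, Finset.mem_filter] at hx ⊢
      refine ⟨hconj x hx.1, ?_⟩
      rw [Complex.conj_im]; linarith [hx.2]
    · intro x _; simp
    · intro x _; simp
  rw [← Finset.card_filter_add_card_filter_not (s := D) (fun x => 0 < x.im), e2,
    Finset.card_insert_of_notMem e3, e4]
  ring

end Pool.Agent.NarrowFew
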