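import Mathlib

/-! Few or nearly independent points on a circle. -/

set_option autoImplicit false

namespace Pool.Agent.NarrowFew

/-- A multiplicative relation between the normalised members of `S` on the circle `|z| = r`:
integer exponents `g z`, zero outside finitely many `z ∈ S` with `|z| = r`, such that the product
of the `(z / r) ^ g z` is a root of unity. -/
def CircleRel (S : Set ℂ) (r : ℝ) (g : ℂ →₀ ℤ) : Prop :=
  (∀ z ∈ g.support, z ∈ S ∧ ‖z‖ = r) ∧
    ∃ q : ℕ, 0 < q ∧ (g.prod fun z e => (z / (r : ℂ)) ^ e) ^ q = 1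

/-- At most eight members of `S` have modulus `r`. -/
def AtMostEight (S : Set ℂ) (r : ℝ) : Prop := {z | z ∈ S ∧ ‖z‖ = r}.ncard ≤ 8

/-- Any two multiplicative relations on the circle are proportional, up to the trivial relations
(which are invariant under complex conjugation). -/
def AtMostOneRel (S : Set ℂ) (r : ℝ) : Prop :=
  ∀ g h : ℂ →₀ ℤ, CircleRel S r g → CircleRel S r h → ∀ z w : ℂ,
    (g z - g ((starRingEnd ℂ) z)) * (h w - h ((starRingEnd ℂ) w)) =
      (g w - g ((starRingEnd ℂ) w)) * (h z - h ((starRingEnd ℂ) z))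

/-- Any two normalised members on the circle are multiplicatively dependent. -/
def PairwiseDependent (S : Set ℂ) (r : ℝ) : Prop :=
  ∀ z ∈ S, ∀ w ∈ S, ‖z‖ = r → ‖w‖ = r → ∃ a b : ℤ, (a ≠ 0 ∨ b ≠ 0) ∧
    ∃ q : ℕ, 0 < q ∧ ((z / (r : ℂ)) ^ a * (w / (r : ℂ)) ^ b) ^ q = 1

/-- Every circle about `0` satisfies one of the three conditions. -/
def Light (S : Set ℂ) : Prop :=
  ∀ r : ℝ, 0 < r → AtMostEight S r ∨ AtMostOneRel S r ∨ PairwiseDependent S r

end Pool.Agent.NarrowFew
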