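import Mathlib
import Pool.Agent.NarrowFew.Decomp
import Pool.Agent.NarrowFew.RankOne

/-! Positive simple sequences with few or nearly independent roots on each circle. -/

set_option autoImplicit false

open Filter Topology

namespace Pool.Agent.NarrowFew

theorem few_core (Λ : Finset ℂ) (C : ℂ → ℂ) (hΛ0 : ∀ x ∈ Λ, x ≠ 0) (w : ℕ → ℝ)
    (hpos : ∀ m, 0 < w m)
    (hw : ∀ᶠ m in atTop, (w m : ℂ) = ∑ x ∈ Λ, C x * x ^ m)
    (htor : ∀ x ∈ Λ, ∀ y ∈ Λ, ‖x‖ = ‖y‖ → x ≠ y → ¬ Tor (x * y⁻¹))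
    (hOK : ∀ r : ℝ, 0 < r → (Λ.filter (fun x => ‖x‖ = r)).card ≤ 8 ∨
      (∀ (m : ℕ) (e : Fin m → ℂ), Function.Injective e →
        (∀ i, e i ∈ Λ ∧ ‖e i‖ = r ∧ 0 < (e i).im) → ∀ g h : Fin m → ℤ,
        Rel (fun i => e i / r) g → Rel (fun i => e i / r) h → ∀ i j, g i * h j = g j * h i) ∨
      (∀ x ∈ Λ, ∀ y ∈ Λ, ‖x‖ = r → ‖y‖ = r → ∃ a b : ℤ, (a ≠ 0 ∨ b ≠ 0) ∧
        Tor ((x / r) ^ a * (y / r) ^ b))) :
    ∃ ρ : ℝ, 0 < ρ ∧ (ρ : ℂ) ∈ Λ ∧ (∃ B : ℝ, ∀ m, |w m| ≤ B * ρ ^ m) ∧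
      (liminf (fun m => w m / ρ ^ m) atTop ≠ 0 ∨ ∃ x ∈ Λ, ‖x‖ = ρ ∧ x ≠ ρ ∧ ∀ κ : ℂ,
        {ζ : ℂ | ∃ φ : ℕ → ℕ, StrictMono φ ∧ Tendsto (fun n => w (φ n) / ρ ^ φ n) atTop (𝓝 0) ∧
          Tendsto (fun n => κ * (x / ρ) ^ φ n) atTop (𝓝 ζ)}.Finite) := by
  classical
  set S : Finset ℂ := Λ.filter (fun x => C x ≠ 0) with hS
  have hSsum : ∀ m, ∑ x ∈ Λ, C x * x ^ m = ∑ x ∈ S, C x * x ^ m := by
    intro m
    rw [hS, Finset.sum_filter]
    refine Finset.sum_congr rfl fun x _ => ?_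
    by_cases h : C x = 0
    · rw [if_neg (not_not.2 h), h, zero_mul]
    · rw [if_pos h]
  have hSne : S.Nonempty := by
    by_contra h
    rw [Finset.not_nonempty_iff_eq_empty] at h
    obtain ⟨m, hm⟩ := hw.exists
    rw [hSsum, h, Finset.sum_empty] at hm
    have : w m = 0 := by exact_mod_cast hm
    exact absurd (hpos m) (by rw [this]; exact lt_irrefl _)
  obtain ⟨x0, hx0, hmax⟩ := Finset.exists_max_image S (fun x => ‖x‖) hSne
  have hSΛ : ∀ x ∈ S, x ∈ Λ := fun x hx => (Finset.mem_filter.1 hx).1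
  have hSC : ∀ x ∈ S, C x ≠ 0 := fun x hx => (Finset.mem_filter.1 hx).2
  set ρ : ℝ := ‖x0‖ with hρdef
  have hρ : 0 < ρ := norm_pos_iff.2 (hΛ0 x0 (hSΛ x0 hx0))
  have hρc : (ρ : ℂ) ≠ 0 := by exact_mod_cast hρ.ne'
  set T : Finset ℂ := S.filter (fun x => ‖x‖ = ρ) with hT
  set D : Finset ℂ := T.image (fun x => x / ρ) with hDdef
  set C' : ℂ → ℂ := fun y => C (ρ * y) with hC'
  have hback : ∀ x : ℂ, (ρ : ℂ) * (x / ρ) = x := fun x => mul_div_cancel₀ x hρc
  have hinj : Function.Injective (fun x : ℂ => x / (ρ : ℂ)) := by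
    intro x y hxy
    have := congrArg (fun z => (ρ : ℂ) * z) hxy
    simpa only [hback] using this
  have hmemD : ∀ y, y ∈ D ↔ ((ρ : ℂ) * y ∈ S ∧ ‖(ρ : ℂ) * y‖ = ρ) := by
    intro y
    rw [hDdef, Finset.mem_image]
    constructor
    · rintro ⟨x, hx, rfl⟩
      rw [hback]
      exact Finset.mem_filter.1 hx
    · intro h
      exact ⟨ρ * y, Finset.mem_filter.2 h, mul_div_cancel_left₀ y hρc⟩
  have hDnorm : ∀ y ∈ D, ‖y‖ = 1 := by
    intro y hy
    have := ((hmemD y).1 hy).2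
    rw [norm_mul, Complex.norm_real, Real.norm_of_nonneg hρ.le] at this
    exact (mul_eq_left₀ hρ.ne').1 this
  have hDC : ∀ y ∈ D, C' y ≠ 0 := fun y hy => hSC _ ((hmemD y).1 hy).1
  have hDne : D.Nonempty := ⟨x0 / ρ, Finset.mem_image.2 ⟨x0, Finset.mem_filter.2 ⟨hx0, rfl⟩, rfl⟩⟩
  set G : ℕ → ℝ := fun m => w m / ρ ^ m with hGdef
  have hGpos : ∀ m, 0 ≤ G m := fun m => div_nonneg (hpos m).le (by positivity)
  have hDsum : ∀ m, ∑ y ∈ D, C' y * y ^ m = ∑ x ∈ T, C x * (x / ρ) ^ m := by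
    intro m
    rw [hDdef, Finset.sum_image fun x _ y _ h => hinj h]
    refine Finset.sum_congr rfl fun x _ => ?_
    rw [hC']
    simp only
    rw [hback]
  have hG : Tendsto (fun m => (G m : ℂ) - ∑ x ∈ D, C' x * x ^ m) atTop (𝓝 0) := by
    have h1 : Tendsto (fun m : ℕ => ∑ x ∈ S.filter (fun x => ¬ ‖x‖ = ρ), C x * (x / ρ) ^ m) atTop
        (𝓝 (∑ x ∈ S.filter (fun x => ¬ ‖x‖ = ρ), C x * 0)) := by
      refine tendsto_finsetSum _ fun x hx => Tendsto.const_mul _ ?_
      rw [Finset.mem_filter] at hx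
      refine tendsto_pow_atTop_nhds_zero_of_norm_lt_one ?_
      rw [norm_div, Complex.norm_real, Real.norm_of_nonneg hρ.le, div_lt_one hρ]
      exact lt_of_le_of_ne (hmax x hx.1) hx.2
    simp only [mul_zero, Finset.sum_const_zero] at h1
    refine h1.congr' ?_
    filter_upwards [hw] with m hm
    rw [hDsum]
    have h2 : (G m : ℂ) = ∑ x ∈ S, C x * (x / ρ) ^ m := by
      rw [hGdef]
      simp only
      rw [Complex.ofReal_div, hm, hSsum, Finset.sum_div]
      refine Finset.sum_congr rfl fun x _ => ?_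
      rw [Complex.ofReal_pow, div_pow]
      ring
    rw [h2, hT, ← Finset.sum_filter_add_sum_filter_not S (fun x => ‖x‖ = ρ)]
    ring
  obtain ⟨h1D, ⟨c0, hc0, hC1⟩, hconj⟩ := dominant D C' hDnorm hDC hDne G hGpos hG
  have hρS : (ρ : ℂ) ∈ S := by
    have := ((hmemD 1).1 h1D).1
    rwa [mul_one] at this
  have hρΛ := hSΛ _ hρS
  have hρnorm : ‖(ρ : ℂ)‖ = ρ := by rw [Complex.norm_real, Real.norm_of_nonneg hρ.le]
  -- torsion
  have htorD : ∀ x ∈ D, ∀ y ∈ D, x ≠ y → ¬ Tor (x * y⁻¹) := by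
    intro x hx y hy hxy
    have hx' := (hmemD x).1 hx
    have hy' := (hmemD y).1 hy
    have := htor _ (hSΛ _ hx'.1) _ (hSΛ _ hy'.1) (hx'.2.trans hy'.2.symm)
      (fun h => hxy (mul_left_cancel₀ hρc h))
    have e : (ρ : ℂ) * x * ((ρ : ℂ) * y)⁻¹ = x * y⁻¹ := by
      rw [mul_inv]; field_simp
    rwa [e] at this
  have hreal : ∀ x ∈ D, x.im = 0 → x = 1 := by
    intro x hx him
    by_contra hne
    have h1 := htorD x hx 1 h1D hne
    rw [inv_one, mul_one] at h1
    apply h1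
    refine ⟨2, two_pos, ?_⟩
    have h2 := hDnorm x hx
    have h3 : x = (x.re : ℂ) := by
      apply Complex.ext
      · rw [Complex.ofReal_re]
      · rw [Complex.ofReal_im, him]
    rw [h3, Complex.norm_real, Real.norm_eq_abs] at h2
    have h4 : x.re ^ 2 = 1 := by rw [← sq_abs, h2, one_pow]
    rw [h3, ← Complex.ofReal_pow, h4]; simp
  set P : Finset ℂ := D.filter (fun x => 0 < x.im) with hP
  have hcardP : (Λ.filter (fun x => ‖x‖ = ρ)).card ≤ 8 → P.card ≤ 3 := by
    intro hcard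
    have h1 := dominant_card D h1D (fun x hx => (hconj x hx).1) hreal
    have h2 : D.card ≤ 8 := by
      rw [hDdef, Finset.card_image_of_injective _ hinj]
      refine (Finset.card_le_card ?_).trans hcard
      intro x hx
      rw [hT, Finset.mem_filter] at hx
      exact Finset.mem_filter.2 ⟨hSΛ x hx.1, hx.2⟩
    rw [hP]
    omega
  -- enumeration of the pairs
  set m := P.card with hm
  obtain ⟨e⟩ : Nonempty (Fin m ≃ P) := ⟨P.equivFin.symm⟩
  set γ : Fin m → ℂ := fun i => (e i : ℂ) with hγ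
  set c : Fin m → ℂ := fun i => C' (e i : ℂ) with hc
  have heD : ∀ i, (e i : ℂ) ∈ D := fun i => (Finset.mem_filter.1 (e i).2).1
  have heim : ∀ i, 0 < (e i : ℂ).im := fun i => (Finset.mem_filter.1 (e i).2).2
  have hgood : Good γ := by
    refine ⟨fun i => hDnorm _ (heD i), fun i => ?_, fun i j hij => ?_, fun i j hij => ?_⟩
    · have h1 := htorD _ (heD i) 1 h1D (by
        intro h
        have := heim i
        rw [h] at this; simp at this)
      rwa [inv_one, mul_one] at h1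
    · have h1 := htorD _ (heD i) _ (hconj _ (heD j)).1 (by
        intro h
        have h2 := heim i
        have h3 := heim j
        rw [h, Complex.conj_im] at h2
        linarith)
      have h4 : ((starRingEnd ℂ) (e j : ℂ))⁻¹ = (e j : ℂ) := by
        have h5 := hDnorm _ (heD j)
        have h6 : (e j : ℂ) * (starRingEnd ℂ) (e j : ℂ) = 1 := by
          rw [Complex.mul_conj, Complex.normSq_eq_norm_sq, h5]; simp
        exact (eq_inv_of_mul_eq_one_left h6).symm
      rwa [h4] at h1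
    · exact htorD _ (heD i) _ (heD j) (by
        intro h
        exact hij (e.injective (Subtype.ext h)))
  have hcne : ∀ i, c i ≠ 0 := fun i => hDC _ (heD i)
  have hFd : ∀ n, ∑ x ∈ D, C' x * x ^ n = ((Fd c0 c (fun i => γ i ^ n) : ℝ) : ℂ) := by
    intro n
    rw [dominant_sum D C' h1D c0 hC1 hconj hreal n]
    congr 1
    unfold Fd
    congr 1
    rw [← hP, ← Finset.sum_coe_sort P (fun x => 2 * (C' x * x ^ n).re)]
    exact (Equiv.sum_comp e (fun x : P => 2 * (C' (x : ℂ) * (x : ℂ) ^ n).re)).symm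
  have hGF : Tendsto (fun n => G n - Fd c0 c (fun i => γ i ^ n)) atTop (𝓝 0) := by
    have h1 := (Complex.continuous_re.tendsto _).comp hG
    rw [Complex.zero_re] at h1
    refine h1.congr fun n => ?_
    simp only [Function.comp_apply]
    rw [hFd, ← Complex.ofReal_sub, Complex.ofReal_re]
  have hAs : AsNonneg c0 c γ := by
    intro ε hε
    have h1 := Metric.tendsto_atTop.1 hGF ε hε
    obtain ⟨N, hN⟩ := h1
    refine ⟨N, fun n hn => ?_⟩
    have h2 := hN n hn
    rw [Real.dist_eq, sub_zero] at h2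
    have h3 := (abs_lt.1 h2).2
    have h4 := hGpos n
    linarith
  have hγρ : ∀ i, (ρ : ℂ) * γ i / ρ = γ i := fun i => mul_div_cancel_left₀ _ hρc
  have hfin : (ZSet c0 c γ).Finite := by
    rcases hOK ρ hρ with h | h | h
    · exact finite_le_three (hcardP h) hc0.ne' hgood hcne hAs
    · refine finite_rank_le_one hgood hcne hAs fun g g' hg hg' => ?_
      refine h m (fun i => ρ * γ i) ?_ (fun i => ?_) g g' ?_ ?_
      · intro i j hij
        exact e.injective (Subtype.ext (mul_left_cancel₀ hρc hij))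
      · refine ⟨hSΛ _ ((hmemD _).1 (heD i)).1, ((hmemD _).1 (heD i)).2, ?_⟩
        rw [Complex.im_ofReal_mul]
        exact mul_pos hρ (heim i)
      · simp only [hγρ]
        exact hg
      · simp only [hγρ]
        exact hg'
    · refine finite_corank_one hc0.ne' hgood fun i j _ => ?_
      obtain ⟨a, b, hab, ht⟩ := h _ (hSΛ _ ((hmemD _).1 (heD i)).1) _
        (hSΛ _ ((hmemD _).1 (heD j)).1) ((hmemD _).1 (heD i)).2 ((hmemD _).1 (heD j)).2
      refine ⟨a, b, hab, ?_⟩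
      rwa [hγρ, hγρ] at ht
  refine ⟨ρ, hρ, hρΛ, ?_, ?_⟩
  · -- boundedness
    have hb : ∃ B : ℝ, ∀ n, |G n| ≤ B := by
      obtain ⟨B1, hB1⟩ := (hGF.abs).bddAbove_range
      refine ⟨B1 + (|c0| + ∑ i, 2 * ‖c i‖), fun n => ?_⟩
      have h1 : |G n - Fd c0 c (fun i => γ i ^ n)| ≤ B1 := hB1 ⟨n, rfl⟩
      have h2 : |Fd c0 c (fun i => γ i ^ n)| ≤ |c0| + ∑ i, 2 * ‖c i‖ := by
        unfold Fd
        refine (abs_add_le _ _).trans (add_le_add le_rfl ?_)
        refine (Finset.abs_sum_le_sum_abs _ _).trans (Finset.sum_le_sum fun i _ => ?_)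
        rw [abs_mul, abs_two]
        have h3 := Complex.abs_re_le_norm (c i * γ i ^ n)
        rw [norm_mul, norm_pow, hgood.norm, one_pow, mul_one] at h3
        linarith
      calc |G n| = |(G n - Fd c0 c (fun i => γ i ^ n)) + Fd c0 c (fun i => γ i ^ n)| := by
            rw [sub_add_cancel]
        _ ≤ _ := (abs_add_le _ _).trans (add_le_add h1 h2)
    obtain ⟨B, hB⟩ := hb
    refine ⟨B, fun n => ?_⟩
    have h1 := hB n
    have h2 : 0 < ρ ^ n := by positivity
    rw [hGdef] at h1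
    simp only at h1
    rwa [abs_div, abs_of_pos h2, div_le_iff₀ h2] at h1
  · by_cases hPe : P = ∅
    · left
      have h1 : Tendsto G atTop (𝓝 c0) := by
        have h2 : ∀ n, Fd c0 c (fun i => γ i ^ n) = c0 := by
          intro n
          have h3 : m = 0 := by rw [hm, hPe, Finset.card_empty]
          unfold Fd
          have : IsEmpty (Fin m) := by rw [h3]; infer_instance
          simp
        have h4 : Tendsto (fun n => (G n - Fd c0 c (fun i => γ i ^ n)) + c0) atTop (𝓝 (0 + c0)) :=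
          hGF.add_const c0
        rw [zero_add] at h4
        refine h4.congr fun n => ?_
        rw [h2]; ring
      change liminf G atTop ≠ 0
      rw [h1.liminf_eq]
      exact hc0.ne'
    · right
      obtain ⟨y, hy⟩ := Finset.nonempty_iff_ne_empty.2 hPe
      have hyD : y ∈ D := (Finset.mem_filter.1 hy).1
      have hyim : 0 < y.im := (Finset.mem_filter.1 hy).2
      have hyS := (hmemD y).1 hyD
      refine ⟨ρ * y, hSΛ _ hyS.1, hyS.2, ?_, fun κ => ?_⟩
      · intro h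
        have : y = 1 := by
          have h2 : (ρ : ℂ) * y = ρ * 1 := by rw [h, mul_one]
          exact mul_left_cancel₀ hρc h2
        rw [this] at hyim; simp at hyim
      · have h1 := contact_finite hgood.norm hfin G hGF (e.symm ⟨y, hy⟩) κ
        have h2 : γ (e.symm ⟨y, hy⟩) = (ρ : ℂ) * y / ρ := by
          rw [hγ]
          simp only [Equiv.apply_symm_apply]
          rw [mul_div_cancel_left₀ y hρc]
        rw [h2] at h1
        exact h1

end Pool.Agent.NarrowFew
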