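import Mathlib
import Pool.Agent.NarrowFew.Few
import Pool.Agent.NarrowFew.Defs
import Pool.Agent.UltPos.Narrow

/-! Positive simple sequences with a light set of roots are narrow. -/

set_option autoImplicit false

open Filter Topology

namespace Pool.Agent.NarrowFew

lemma exists_modulus {k : ℕ} (l : Fin k → ℂ) :
    ∃ N : ℕ, 0 < N ∧ ∀ i j, (∃ n : ℕ, 0 < n ∧ l i ^ n = l j ^ n) → l i ^ N = l j ^ N := by
  classical
  have h : ∀ p : Fin k × Fin k, ∃ n : ℕ, 0 < n ∧
      ((∃ n : ℕ, 0 < n ∧ l p.1 ^ n = l p.2 ^ n) → l p.1 ^ n = l p.2 ^ n) := by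
    intro p
    by_cases h : ∃ n : ℕ, 0 < n ∧ l p.1 ^ n = l p.2 ^ n
    · obtain ⟨n, hn, h1⟩ := h
      exact ⟨n, hn, fun _ => h1⟩
    · exact ⟨1, one_pos, fun h' => absurd h' h⟩
  choose n hn hn' using h
  refine ⟨∏ p, n p, Finset.prod_pos fun p _ => hn p, fun i j hij => ?_⟩
  have h1 := hn' (i, j) hij
  obtain ⟨q, hq⟩ := Finset.dvd_prod_of_mem n (Finset.mem_univ (i, j))
  rw [hq, pow_mul, pow_mul]
  simp only at h1
  rw [h1]

theorem few_seq {k : ℕ} (l c : Fin k → ℂ) (v : ℕ → ℝ)
    (hv : ∀ n, ∑ i, c i * l i ^ n = (v n : ℂ)) (hpos : ∀ n, 0 < v n)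
    (hL : Light (Set.range l)) :
    UltPos.IsNarrow v (Set.range l) := by
  classical
  obtain ⟨N, hN, hmod⟩ := exists_modulus l
  refine ⟨N, hN, fun J _ => ?_⟩
  set T : Finset (Fin k) := Finset.univ.filter (fun i => l i ≠ 0) with hT
  set Λ : Finset ℂ := T.image (fun i => l i ^ N) with hΛ
  set C : ℂ → ℂ := fun x => ∑ i ∈ T.filter (fun i => l i ^ N = x), c i * l i ^ J with hC
  have hTm : ∀ i, i ∈ T ↔ l i ≠ 0 := fun i => by rw [hT, Finset.mem_filter]; simp
  have hΛ0 : ∀ x ∈ Λ, x ≠ 0 := by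
    intro x hx
    obtain ⟨i, hi, rfl⟩ := Finset.mem_image.1 hx
    exact pow_ne_zero _ ((hTm i).1 hi)
  have hw : ∀ᶠ m in atTop, ((v (N * m + J) : ℝ) : ℂ) = ∑ x ∈ Λ, C x * x ^ m := by
    filter_upwards [eventually_gt_atTop 0] with m hm
    rw [← hv]
    have h1 : ∑ i, c i * l i ^ (N * m + J) = ∑ i ∈ T, c i * l i ^ (N * m + J) := by
      symm
      refine Finset.sum_subset (Finset.subset_univ _) fun i _ hi => ?_
      have h2 : l i = 0 := by
        by_contra h
        exact hi ((hTm i).2 h)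
      rw [h2, zero_pow (by positivity), mul_zero]
    rw [h1, ← Finset.sum_fiberwise_of_maps_to (s := T) (t := Λ) (g := fun i => l i ^ N)
      (fun i hi => Finset.mem_image_of_mem _ hi)]
    refine Finset.sum_congr rfl fun x _ => ?_
    rw [hC]
    simp only
    rw [Finset.sum_mul]
    refine Finset.sum_congr rfl fun i hi => ?_
    rw [Finset.mem_filter] at hi
    rw [← hi.2, pow_add, pow_mul]
    ring
  have htor : ∀ x ∈ Λ, ∀ y ∈ Λ, ‖x‖ = ‖y‖ → x ≠ y → ¬ Tor (x * y⁻¹) := by
    intro x hx y hy _ hxy ht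
    obtain ⟨i, hi, rfl⟩ := Finset.mem_image.1 hx
    obtain ⟨j, hj, rfl⟩ := Finset.mem_image.1 hy
    obtain ⟨q, hq, h1⟩ := ht
    have hj0 : l j ^ N ≠ 0 := hΛ0 _ hy
    apply hxy
    apply hmod
    refine ⟨N * q, Nat.mul_pos hN hq, ?_⟩
    rw [mul_pow, inv_pow, mul_inv_eq_one₀ (pow_ne_zero _ hj0)] at h1
    rw [pow_mul, pow_mul, h1]
  have hcard : ∀ r : ℝ, 0 < r → (Λ.filter (fun x => ‖x‖ = r)).card ≤ 8 ∨
      (∀ (m : ℕ) (e : Fin m → ℂ), Function.Injective e →
        (∀ i, e i ∈ Λ ∧ ‖e i‖ = r ∧ 0 < (e i).im) → ∀ g h : Fin m → ℤ,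
        Rel (fun i => e i / r) g → Rel (fun i => e i / r) h → ∀ i j, g i * h j = g j * h i) ∨
      (∀ x ∈ Λ, ∀ y ∈ Λ, ‖x‖ = r → ‖y‖ = r → ∃ a b : ℤ, (a ≠ 0 ∨ b ≠ 0) ∧
        Tor ((x / r) ^ a * (y / r) ^ b)) := by
    intro r hr
    set s : ℝ := r ^ ((N : ℝ)⁻¹) with hs
    have hs0 : 0 < s := Real.rpow_pos_of_pos hr _
    have hsN : s ^ N = r := Real.rpow_inv_natCast_pow hr.le hN.ne'
    have hsNc : ((s : ℂ)) ^ N = r := by rw [← hsN]; push_cast; rfl
    have hnorm : ∀ i, ‖l i ^ N‖ = r → ‖l i‖ = s := by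
      intro i h1
      rw [norm_pow, ← hsN] at h1
      exact (pow_left_inj₀ (norm_nonneg _) hs0.le hN.ne').1 h1
    rcases hL s hs0 with h | h | h
    · left
      have hfin : {z | z ∈ Set.range l ∧ ‖z‖ = s}.Finite :=
        (Set.finite_range l).subset fun z hz => hz.1
      have hsub : (↑(Λ.filter (fun x => ‖x‖ = r)) : Set ℂ) ⊆
          (fun z => z ^ N) '' {z | z ∈ Set.range l ∧ ‖z‖ = s} := by
        intro x hx
        rw [Finset.mem_coe, Finset.mem_filter] at hx
        obtain ⟨i, hi, rfl⟩ := Finset.mem_image.1 hx.1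
        exact ⟨l i, ⟨⟨i, rfl⟩, hnorm i hx.2⟩, rfl⟩
      rw [← Set.ncard_coe_finset]
      exact (Set.ncard_le_ncard hsub (hfin.image _)).trans ((Set.ncard_image_le hfin).trans h)
    · right; left
      intro m e he hmem g g' hg hg'
      have hex : ∀ i, ∃ j, l j ^ N = e i := by
        intro i
        obtain ⟨j, -, hj⟩ := Finset.mem_image.1 (hmem i).1
        exact ⟨j, hj⟩
      choose ι hι using hex
      have hlι : Function.Injective fun i => l (ι i) := by
        intro i j hij
        apply he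
        rw [← hι i, ← hι j]
        simp only at hij
        rw [hij]
      have hns : ∀ i, ‖l (ι i)‖ = s := fun i => hnorm _ (by rw [hι i]; exact (hmem i).2.1)
      have hconj : ∀ i j, (starRingEnd ℂ) (l (ι i)) ≠ l (ι j) := by
        intro i j h1
        have h2 : (starRingEnd ℂ) (e i) = e j := by
          rw [← hι i, ← hι j, map_pow, h1]
        have h3 := (hmem i).2.2
        have h4 := (hmem j).2.2
        rw [← h2, Complex.conj_im] at h4
        linarith
      have hgen : ∀ G : Fin m → ℤ, Rel (fun i => e i / r) G →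
          CircleRel (Set.range l) s (∑ i, Finsupp.single (l (ι i)) (N * G i)) ∧
          (∀ j, (∑ i, Finsupp.single (l (ι i)) ((N : ℤ) * G i)) (l (ι j)) = N * G j) ∧
          (∀ j, (∑ i, Finsupp.single (l (ι i)) ((N : ℤ) * G i))
            ((starRingEnd ℂ) (l (ι j))) = 0) := by
        intro G hG
        have hsupp : ∀ z ∈ (∑ i, Finsupp.single (l (ι i)) ((N : ℤ) * G i)).support,
            z ∈ Set.range l ∧ ‖z‖ = s := by
          intro z hz
          have h1 := Finsupp.support_finsetSum hz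
          rw [Finset.mem_biUnion] at h1
          obtain ⟨i, -, h2⟩ := h1
          have h3 := Finsupp.support_single_subset h2
          rw [Finset.mem_singleton] at h3
          rw [h3]
          exact ⟨⟨ι i, rfl⟩, hns i⟩
        refine ⟨⟨hsupp, ?_⟩, ?_, ?_⟩
        · obtain ⟨q, hq, h1⟩ := hG
          refine ⟨q, hq, ?_⟩
          rw [← h1]
          congr 1
          have hsc : (s : ℂ) ≠ 0 := by exact_mod_cast hs0.ne'
          have e1 : ((∑ i, Finsupp.single (l (ι i)) ((N : ℤ) * G i)).prod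
              fun z e => (z / (s : ℂ)) ^ e) =
              (∑ i, Finsupp.single (l (ι i)) ((N : ℤ) * G i)).prod
                fun z e => if z = 0 then 1 else (z / (s : ℂ)) ^ e := by
            refine Finset.prod_congr rfl fun z hz => ?_
            have h2 := (hsupp z hz).2
            beta_reduce
            rw [if_neg]
            intro h3
            rw [h3, norm_zero] at h2
            exact hs0.ne h2
          rw [e1, ← Finsupp.prod_finsetSum_index]
          · refine Finset.prod_congr rfl fun i _ => ?_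
            have h2 : l (ι i) ≠ 0 := by
              intro h3
              have h4 := hns i
              rw [h3, norm_zero] at h4
              exact hs0.ne h4
            rw [Finsupp.prod_single_index]
            · rw [if_neg h2, zpow_mul, zpow_natCast, div_pow, hι i, hsNc]
            · rw [if_neg h2, zpow_zero]
          · intro z
            split_ifs
            · rfl
            · exact zpow_zero _
          · intro z a b
            split_ifs with hz
            · rw [mul_one]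
            · exact zpow_add₀ (div_ne_zero hz hsc) a b
        · intro j
          rw [Finsupp.finsetSum_apply, Finset.sum_eq_single j]
          · simp
          · intro i _ hij
            rw [Finsupp.single_apply, if_neg]
            intro h1
            exact hij (hlι h1)
          · intro h1; exact absurd (Finset.mem_univ j) h1
        · intro j
          rw [Finsupp.finsetSum_apply]
          refine Finset.sum_eq_zero fun i _ => ?_
          rw [Finsupp.single_apply, if_neg]
          intro h1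
          exact hconj j i h1.symm
      obtain ⟨a1, a2, a3⟩ := hgen g hg
      obtain ⟨b1, b2, b3⟩ := hgen g' hg'
      intro i j
      have h1 := h _ _ a1 b1 (l (ι i)) (l (ι j))
      rw [a2, a2, b2, b2, a3, a3, b3, b3] at h1
      simp only [sub_zero] at h1
      have hN0 : ((N : ℤ) * N) ≠ 0 := by
        have : (N : ℤ) ≠ 0 := by exact_mod_cast hN.ne'
        exact mul_ne_zero this this
      apply mul_left_cancel₀ hN0
      linarith
    · right; right
      intro x hx y hy hxr hyr
      obtain ⟨i, -, rfl⟩ := Finset.mem_image.1 hx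
      obtain ⟨j, -, rfl⟩ := Finset.mem_image.1 hy
      obtain ⟨a, b, hab, q, hq, h1⟩ := h (l i) ⟨i, rfl⟩ (l j) ⟨j, rfl⟩ (hnorm i hxr) (hnorm j hyr)
      refine ⟨a, b, hab, q, hq, ?_⟩
      have e1 : (l i ^ N / (r : ℂ)) ^ a * (l j ^ N / (r : ℂ)) ^ b =
          ((l i / (s : ℂ)) ^ a * (l j / (s : ℂ)) ^ b) ^ N := by
        rw [← hsNc, ← div_pow, ← div_pow, mul_pow, ← zpow_natCast, ← zpow_natCast, ← zpow_natCast,
          ← zpow_natCast, ← zpow_mul, ← zpow_mul, ← zpow_mul, ← zpow_mul, mul_comm a, mul_comm b]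
      rw [e1, ← pow_mul, mul_comm N q, pow_mul, h1, one_pow]
  obtain ⟨ρ, hρ, hρΛ, hB, hcase⟩ := few_core Λ C hΛ0 (fun m => v (N * m + J))
    (fun m => hpos _) hw htor hcard
  refine ⟨ρ, hρ, hB, hcase.imp id ?_⟩
  rintro ⟨x, hx, hxρ, hxne, hfin⟩
  obtain ⟨i, hi, rfl⟩ := Finset.mem_image.1 hx
  obtain ⟨j, hj, hjρ⟩ := Finset.mem_image.1 hρΛ
  have hj0 : l j ≠ 0 := (hTm j).1 hj
  have hρc : (ρ : ℂ) ≠ 0 := by exact_mod_cast hρ.ne'
  refine ⟨l i, ⟨i, rfl⟩, l j, ⟨j, rfl⟩, ?_, ?_, ?_⟩
  · have h1 : ‖l i‖ ^ N = ‖l j‖ ^ N := by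
      rw [← norm_pow, ← norm_pow, hxρ]
      rw [hjρ, Complex.norm_real, Real.norm_of_nonneg hρ.le]
    exact (pow_left_inj₀ (norm_nonneg _) (norm_nonneg _) hN.ne').1 h1
  · intro n hn h
    apply hxne
    rw [← hjρ]
    exact hmod i j ⟨n, hn, h⟩
  · refine (hfin ((l i / l j) ^ J)).subset ?_
    rintro ζ ⟨φ, hφ, h1, h2⟩
    refine ⟨φ, hφ, h1, h2.congr fun n => ?_⟩
    rw [← hjρ, ← div_pow, ← pow_mul, ← pow_add, add_comm]

end Pool.Agent.NarrowFew
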