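import Pool.Agent.DD7719.NSimple
import Pool.Agent.NarrowFew.SeqFew

/-! Simple positive instances with a light set of characteristic roots are narrow. -/

set_option autoImplicit false

namespace Pool.Agent.UltPos

open Filter Topology Pool.Agent.DD7719.M

lemma IsNarrow.mono {v : ℕ → ℝ} {S S' : Set ℂ} (h : IsNarrow v S) (hS : S ⊆ S') :
    IsNarrow v S' := by
  obtain ⟨N, hN, h⟩ := h
  refine ⟨N, hN, fun J hJ => ?_⟩
  obtain ⟨ρ, hρ, hB, h⟩ := h J hJ
  refine ⟨ρ, hρ, hB, h.imp id ?_⟩
  rintro ⟨a, ha, b, hb, h⟩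
  exact ⟨a, hS ha, b, hS hb, h⟩

lemma Inst.charPoly_ne_zero (I : Inst) : I.charPoly ≠ 0 := by
  intro h
  have h1 := I.charPoly_map
  rw [h, Polynomial.map_zero] at h1
  exact (cp_monic I.k (fun t => ((I.aQ t : ℚ) : ℂ))).ne_zero h1.symm

lemma Inst.rootSet_finite (I : Inst) : I.rootSet.Finite := by
  refine (I.charPoly.rootSet_finite ℂ).subset fun z hz => ?_
  rw [Polynomial.mem_rootSet]
  exact ⟨I.charPoly_ne_zero, hz⟩

lemma Inst.ncard_rootSet_le (I : Inst) : I.rootSet.ncard ≤ I.k := by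
  have h1 : I.rootSet ⊆ I.charPoly.rootSet ℂ := fun z hz => by
    rw [Polynomial.mem_rootSet]
    exact ⟨I.charPoly_ne_zero, hz⟩
  refine (Set.ncard_le_ncard h1 (I.charPoly.rootSet_finite ℂ)).trans ?_
  refine (I.charPoly.ncard_rootSet_le ℂ).trans ?_
  have h2 := congrArg Polynomial.natDegree I.charPoly_map
  rw [Polynomial.natDegree_map, cp_natDegree] at h2
  exact h2.le

lemma Inst.light_mono {S S' : Set ℂ} (hS : S ⊆ S') (hfin : S'.Finite) (h : NarrowFew.Light S') :
    NarrowFew.Light S := by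
  intro r hr
  rcases h r hr with h | h | h
  · left
    have h1 : {z | z ∈ S ∧ ‖z‖ = r} ⊆ {z | z ∈ S' ∧ ‖z‖ = r} := fun z hz => ⟨hS hz.1, hz.2⟩
    exact (Set.ncard_le_ncard h1 (hfin.subset (Set.sep_subset _ _))).trans h
  · right; left
    intro g g' hg hg'
    exact h g g' ⟨fun z hz => ⟨hS (hg.1 z hz).1, (hg.1 z hz).2⟩, hg.2⟩
      ⟨fun z hz => ⟨hS (hg'.1 z hz).1, (hg'.1 z hz).2⟩, hg'.2⟩
  · right; right
    exact fun z hz w hw => h z (hS hz) w (hS hw)

/-- **Simple positive recurrences with a light set of characteristic roots are narrow.** -/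
theorem Inst.Simple.narrow_of_light {I : Inst} (hI : I.Simple) (hP : I.Positive)
    (hL : NarrowFew.Light I.rootSet) : I.Narrow := by
  classical
  obtain ⟨v, hv, -⟩ := I.exists_unique_seq
  refine ⟨v, hv, ?_⟩
  obtain ⟨l, c, ex, hrd, -, -⟩ := exists_rootData I.k I.aQ I.uQ
  have hex : ∀ i, i < I.k → ex i = 0 := by
    intro i hi
    by_contra hne
    have h1 := (I.simple_iff (fun t => ((I.aQ t : ℚ) : ℝ)) (fun t h => by
      simp only [Inst.aQ, h, dif_pos])).mp hI
    exact h1 ⟨l i, fun e he => hrd.2.2.1 i hi e (by omega)⟩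
  have hall := hrd.all (fun n => ((v n : ℚ) : ℝ)) (by
    intro n hn
    have := hv.1 ⟨n, hn⟩
    simp only [Inst.uQ, hn, dif_pos]
    exact_mod_cast this) (by
    intro n hn
    rw [hv.2 n hn, Finset.sum_range]
    push_cast
    apply Finset.sum_congr rfl
    intro t _
    simp only [Inst.aQ, t.2, dif_pos])
  have hroot : ∀ i : Fin I.k, l i ∈ I.rootSet := by
    intro i
    have h1 := hrd.root i i.2
    have h2 := congrArg (Polynomial.eval (l i)) I.charPoly_map
    rw [Polynomial.eval_map, DD7719.M.cp, Polynomial.eval_sub, Polynomial.eval_pow,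
      Polynomial.eval_X, Polynomial.eval_finsetSum, h1] at h2
    change Polynomial.aeval (l i) I.charPoly = 0
    rw [Polynomial.aeval_def, h2, sub_eq_zero]
    apply Finset.sum_congr rfl
    intro t _
    simp
  have hsub : Set.range (fun i : Fin I.k => l i) ⊆ I.rootSet := by
    rintro z ⟨i, rfl⟩
    exact hroot i
  refine (NarrowFew.few_seq (fun i : Fin I.k => l i) (fun i => c i) (fun n => ((v n : ℚ) : ℝ))
    (fun n => ?_) (fun n => by exact_mod_cast hP v hv n)
    (Inst.light_mono hsub I.rootSet_finite hL)).mono hsub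
  rw [← hall n]
  apply Finset.sum_congr rfl
  intro i _
  rw [hex i i.2]
  simp

/-- Instances of order at most eight are light. -/
theorem Inst.light_of_order {I : Inst} (hk : I.k ≤ 8) : NarrowFew.Light I.rootSet :=
  fun _ _ => Or.inl ((Set.ncard_le_ncard (Set.sep_subset _ _) I.rootSet_finite).trans
    ((I.ncard_rootSet_le).trans hk))

end Pool.Agent.UltPos
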