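import Pool.Agent.NarrowFew.Inst
import Pool.Agent.UltPos.EightRoots

/-! Instances with at most eight roots on each circle are light. -/

set_option autoImplicit false

namespace Pool.Agent.UltPos

theorem Inst.EightPerCircle.light {I : Inst} (h : I.EightPerCircle) :
    NarrowFew.Light I.rootSet := by
  intro r _
  left
  have h1 := h r
  have hfin : {z | z ∈ I.rootSet ∧ ‖z‖ = r}.Finite := I.rootSet_finite.subset (Set.sep_subset _ _)
  unfold NarrowFew.AtMostEight
  rw [← hfin.cast_ncard_eq] at h1
  exact_mod_cast h1

end Pool.Agent.UltPos
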